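import Mathlib

open scoped Matrix ContDiff Manifold ComplexOrder

namespace Pool.Agent.H67.NN

/-- Coordinate space. -/
abbrev Coord (n : ℕ) := Fin n → ℝ

/-- The `i`-th partial derivative of a real function. -/
noncomputable def pd {n : ℕ} (i : Fin n) (h : Coord n → ℝ) (u : Coord n) : ℝ :=
  fderiv ℝ h u (Pi.single i 1)

/-- The Christoffel symbols `Γ^k_{ij}` of a metric with matrix `G` in coordinates. -/
noncomputable def christoffel {n : ℕ} (G : Coord n → Matrix (Fin n) (Fin n) ℝ) (k i j : Fin n)
    (u : Coord n) : ℝ :=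
  1 / 2 * ∑ l, (G u)⁻¹ k l *
    (pd i (fun v => G v j l) u + pd j (fun v => G v i l) u - pd l (fun v => G v i j) u)

/-- The components `R^l_{kij}` of the curvature tensor, `R(∂_i, ∂_j) ∂_k = ∑_l R^l_{kij} ∂_l`. -/
noncomputable def riemann {n : ℕ} (G : Coord n → Matrix (Fin n) (Fin n) ℝ) (l k i j : Fin n)
    (u : Coord n) : ℝ :=
  pd i (christoffel G l j k) u - pd j (christoffel G l i k) u +
    ∑ p, (christoffel G l i p u * christoffel G p j k u -
      christoffel G l j p u * christoffel G p i k u)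

/-- The curvature tensor `R(x, y) z` at the point `u`, in coordinates. -/
noncomputable def curv {n : ℕ} (G : Coord n → Matrix (Fin n) (Fin n) ℝ) (u x y z : Coord n) :
    Coord n :=
  fun l => ∑ i, ∑ j, ∑ k, x i * y j * z k * riemann G l k i j u

/-- Complex square matrices of size `m + 2`. -/
abbrev Mat (m : ℕ) : Type := Matrix (Fin 2 ⊕ Fin m) (Fin 2 ⊕ Fin m) ℂ

/-- The diagonal matrix `diag(1, 1, ε, …, ε)`. -/
def eta (m : ℕ) (ε : ℝ) : Mat m := Matrix.diagonal (Sum.elim (fun _ => 1) fun _ => (ε : ℂ))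

/-- The two-plane Grassmannian. With `η = diag(1, 1, ε, …, ε)` it consists of the projections
(idempotent matrices) `P` of rank two which are self-adjoint for the Hermitian form
`h(a, b) = a^* η b`, and such that `h(P a, P a) + ε h((1 - P) a, (1 - P) a) > 0` for `a ≠ 0`.
For `ε = 1` these are the orthogonal projections onto the complex two-planes of `ℂ^{m+2}`; for
`ε = -1` these are the `h`-orthogonal projections onto the complex two-planes on which the form
`h`, of signature `(2, m)`, is positive definite. -/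
def grass (m : ℕ) (ε : ℝ) : Set (Mat m) :=
  {P | P * P = P ∧ P.rank = 2 ∧ Pᴴ * eta m ε = eta m ε * P ∧
    (eta m ε * P + (ε : ℂ) • (eta m ε * (1 - P))).PosDef}

/-- The tangent space at `P` of the Grassmannian: the matrices `X` with `X^* η = η X` and
`P X + X P = X`. -/
def tangent (m : ℕ) (ε : ℝ) (P : Mat m) : Set (Mat m) :=
  {X | Xᴴ * eta m ε = eta m ε * X ∧ P * X + X * P = X}

/-- The complex structure `J` of the Grassmannian at `P`: `J X = i (X P - P X)`. -/
def cplx {m : ℕ} (P X : Mat m) : Mat m := Complex.I • (X * P - P * X)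

/-- The Riemannian metric of the Grassmannian with parameter `ε`, multiplied by `s > 0`:
`⟨X, Y⟩ = s ε Re tr (X Y)`. -/
noncomputable def metric {m : ℕ} (s ε : ℝ) (X Y : Mat m) : ℝ := s * ε * (X * Y).trace.re

variable {n m : ℕ} {M : Type*} [TopologicalSpace M] [ChartedSpace (Coord n) M]

/-- The derivative at `v`, in the direction `x`, of a matrix-valued function. -/
noncomputable def deriv1 (f : Coord n → Mat m) (v x : Coord n) : Mat m := fderiv ℝ f v x

/-- The expression of `F : M → Mat m` in the chart at `p`. -/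
noncomputable def localRep (F : M → Mat m) (p : M) (v : Coord n) : Mat m :=
  F ((chartAt (Coord n) p).symm v)

/-- The differential of `F` at `p`; the chart at `p` identifies the tangent space `T_p M` with
`ℝ^n`. -/
noncomputable def dF (F : M → Mat m) (p : M) (X : Coord n) : Mat m :=
  deriv1 (localRep F p) (chartAt (Coord n) p p) X

/-- `F : M → Mat m` is a smooth immersion with values in the two-plane Grassmannian. -/
def IsImmersed (n : ℕ) {m : ℕ} {M : Type*} [TopologicalSpace M] [ChartedSpace (Coord n) M]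
    (ε : ℝ) (F : M → Mat m) : Prop :=
  (∀ a b, ContMDiff 𝓘(ℝ, Coord n) 𝓘(ℝ, ℂ) ∞ fun q => F q a b) ∧ (∀ p, F p ∈ grass m ε) ∧
    ∀ p, Function.Injective (dF (n := n) F p)

/-- The matrix of the induced metric in the chart at `p`, `G_{ij} = ⟨∂_i F, ∂_j F⟩`. -/
noncomputable def gramAt (s ε : ℝ) (F : M → Mat m) (p : M) (v : Coord n) :
    Matrix (Fin n) (Fin n) ℝ :=
  Matrix.of fun i j => metric s ε (deriv1 (localRep F p) v (Pi.single i 1))
    (deriv1 (localRep F p) v (Pi.single j 1))

/-- The curvature tensor `R(X, Y) Z` at `p` of the metric which the immersion `F` induces on `M`,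
computed in the chart at `p`. -/
noncomputable def curvature (s ε : ℝ) (F : M → Mat m) (p : M) (X Y Z : Coord n) : Coord n :=
  curv (gramAt s ε F p) (chartAt (Coord n) p p) X Y Z

/-- The induced metric `g(X, Y) = ⟨dF X, dF Y⟩` at `p`. -/
noncomputable def gM (s ε : ℝ) (F : M → Mat m) (p : M) (X Y : Coord n) : ℝ :=
  metric s ε (dF F p X) (dF F p Y)

/-- `N` is a unit normal vector at `p` of the immersed manifold `M` in the Grassmannian, and
`ξ = - J N` is the structure vector. -/
def IsNormalReeb (s ε : ℝ) (F : M → Mat m) (p : M) (N : Mat m) (ξ : Coord n) : Prop :=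
  N ∈ tangent m ε (F p) ∧ metric s ε N N = 1 ∧
    (∀ X : Coord n, metric s ε (dF F p X) N = 0) ∧ dF F p ξ = -cplx (F p) N

/-- The vector `η(Y) A X - η(X) A Y`, where `η(X) = g(X, ξ)`. -/
noncomputable def etaTerm (s ε : ℝ) (F : M → Mat m) (p : M) (ξ : Coord n)
    (A : Coord n → Coord n) (X Y : Coord n) : Coord n :=
  gM s ε F p Y ξ • A X - gM s ε F p X ξ • A Y

/-- The nullity identity at `p`: for all tangent vectors `X`, `Y`,
`R(X, Y) ξ = κ (η(Y) X - η(X) Y) + μ (η(Y) A X - η(X) A Y) + ν (η(Y) B X - η(X) B Y)`. -/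
def Nullity (s ε : ℝ) (F : M → Mat m) (p : M) (ξ : Coord n) (κ μ ν : ℝ)
    (A B : Coord n → Coord n) : Prop :=
  ∀ X Y : Coord n, curvature s ε F p X Y ξ =
    κ • etaTerm s ε F p ξ id X Y + μ • etaTerm s ε F p ξ A X Y + ν • etaTerm s ε F p ξ B X Y

end Pool.Agent.H67.NN
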