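import Pool.Agent.H67.NN.Defs

open scoped Matrix Topology ContDiff Manifold ComplexOrder

namespace Pool.Agent.H67.NN

/-- The `i`-th coordinate vector. -/
noncomputable abbrev cv {n : ℕ} (i : Fin n) : Coord n := Pi.single i 1

/-- The tangent space at `P`, as a real subspace. -/
def tgt {ι : Type*} [Fintype ι] (η P : Matrix ι ι ℂ) : Submodule ℝ (Matrix ι ι ℂ) where
  carrier := {X | Xᴴ * η = η * X ∧ P * X + X * P = X}
  add_mem' := by
    rintro X Y ⟨h1, h2⟩ ⟨h3, h4⟩
    refine ⟨?_, ?_⟩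
    · rw [Matrix.conjTranspose_add, add_mul, mul_add, h1, h3]
    · rw [mul_add, add_mul]
      calc P * X + P * Y + (X * P + Y * P) = (P * X + X * P) + (P * Y + Y * P) := by abel
        _ = X + Y := by rw [h2, h4]
  zero_mem' := by simp
  smul_mem' := by
    rintro c X ⟨h1, h2⟩
    refine ⟨?_, ?_⟩
    · rw [Matrix.conjTranspose_smul, star_trivial, Matrix.smul_mul, Matrix.mul_smul, h1]
    · rw [Matrix.smul_mul, Matrix.mul_smul, ← smul_add, h2]

/-- The complex structure, for a general index set. -/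
def cplxG {ι : Type*} [Fintype ι] (P X : Matrix ι ι ℂ) : Matrix ι ι ℂ :=
  Complex.I • (X * P - P * X)

/-! ### The Gauss equation in coordinates -/

section gauss

section

variable {n : ℕ} {V : Type*} [NormedAddCommGroup V] [NormedSpace ℝ V]

/-- first derivatives -/
noncomputable def D1 (f : Coord n → V) (i : Fin n) (v : Coord n) : V := fderiv ℝ f v (cv i)

/-- second derivatives -/
noncomputable def D2 (f : Coord n → V) (i j : Fin n) (v : Coord n) : V :=
  fderiv ℝ (D1 f j) v (cv i)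

/-- third derivatives -/
noncomputable def D3 (f : Coord n → V) (i j k : Fin n) (v : Coord n) : V :=
  fderiv ℝ (D2 f j k) v (cv i)

/-- The Gram matrix. -/
noncomputable def gramB (B : V →L[ℝ] V →L[ℝ] ℝ) (f : Coord n → V) (v : Coord n) :
    Matrix (Fin n) (Fin n) ℝ :=
  Matrix.of fun i j => B (D1 f i v) (D1 f j v)

lemma contDiffAt_D1 {f : Coord n → V} {u : Coord n} {m k : ℕ∞} (hf : ContDiffAt ℝ k f u)
    (h : m + 1 ≤ k) (i : Fin n) : ContDiffAt ℝ m (D1 f i) u := by
  unfold D1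
  exact (hf.fderiv_right (m := m) (by exact_mod_cast h)).clm_apply contDiffAt_const

lemma contDiffAt_D2 {f : Coord n → V} {u : Coord n} {m k : ℕ∞} (hf : ContDiffAt ℝ k f u)
    (h : m + 1 + 1 ≤ k) (i j : Fin n) : ContDiffAt ℝ m (D2 f i j) u := by
  unfold D2
  exact ((contDiffAt_D1 hf h j).fderiv_right (m := m) le_rfl).clm_apply contDiffAt_const

lemma D2_symm {f : Coord n → V} {u : Coord n} (hf : ContDiffAt ℝ 2 f u) (i j : Fin n) :
    D2 f i j u = D2 f j i u := by
  have h1 : DifferentiableAt ℝ (fderiv ℝ f) u :=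
    (hf.fderiv_right (m := 1) le_rfl).differentiableAt one_ne_zero
  have h2 : IsSymmSndFDerivAt ℝ f u := hf.isSymmSndFDerivAt (by simp)
  have key : ∀ a b : Fin n, D2 f a b u = fderiv ℝ (fderiv ℝ f) u (cv a) (cv b) := by
    intro a b
    unfold D2 D1
    rw [fderiv_clm_apply h1 (differentiableAt_const _)]
    simp
  rw [key, key, h2.eq]

variable {B : V →L[ℝ] V →L[ℝ] ℝ}

lemma fderiv_B {g h : Coord n → V} {u : Coord n} (hg : DifferentiableAt ℝ g u)
    (hh : DifferentiableAt ℝ h u) (i : Fin n) :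
    pd i (fun v => B (g v) (h v)) u =
      B (fderiv ℝ g u (cv i)) (h u) + B (g u) (fderiv ℝ h u (cv i)) := by
  unfold pd
  have h1 : HasFDerivAt (fun v => B (g v)) (B.comp (fderiv ℝ g u)) u :=
    B.hasFDerivAt.comp u hg.hasFDerivAt
  have h2 := h1.clm_apply hh.hasFDerivAt
  rw [h2.fderiv]
  simp [add_comm]

variable (hB : ∀ x y, B x y = B y x)
include hB

lemma koszul {f : Coord n → V} {v : Coord n} (hf : ContDiffAt ℝ 2 f v) (i j l : Fin n) :
    pd i (fun w => gramB B f w j l) v + pd j (fun w => gramB B f w i l) v -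
      pd l (fun w => gramB B f w i j) v = 2 * B (D2 f i j v) (D1 f l v) := by
  have hd : ∀ a, DifferentiableAt ℝ (D1 f a) v := fun a =>
    (contDiffAt_D1 (m := 1) (k := 2) (by exact_mod_cast hf) (by norm_num) a).differentiableAt
      (by simp)
  simp only [gramB, Matrix.of_apply]
  rw [fderiv_B (hd j) (hd l), fderiv_B (hd i) (hd l), fderiv_B (hd i) (hd j)]
  change B (D2 f i j v) (D1 f l v) + B (D1 f j v) (D2 f i l v) +
    (B (D2 f j i v) (D1 f l v) + B (D1 f i v) (D2 f j l v)) -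
    (B (D2 f l i v) (D1 f j v) + B (D1 f i v) (D2 f l j v)) = _
  rw [D2_symm hf j i, D2_symm hf l i, D2_symm hf l j, hB (D2 f i l v) (D1 f j v)]
  ring

lemma christoffel_eq {f : Coord n → V} {v : Coord n} (hf : ContDiffAt ℝ 2 f v) (k i j : Fin n) :
    christoffel (gramB B f) k i j v =
      ∑ l, (gramB B f v)⁻¹ k l * B (D2 f i j v) (D1 f l v) := by
  unfold christoffel
  rw [Finset.mul_sum]
  refine Finset.sum_congr rfl fun l _ => ?_
  rw [koszul hB hf]
  ring

lemma sum_christoffel {f : Coord n → V} {v : Coord n} (hf : ContDiffAt ℝ 2 f v)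
    (hdet : IsUnit (gramB B f v).det) (i j q : Fin n) :
    ∑ k, christoffel (gramB B f) k i j v * gramB B f v k q = B (D2 f i j v) (D1 f q v) := by
  have hsymm : (gramB B f v)ᵀ = gramB B f v := by
    ext a b
    simp [gramB, hB (D1 f a v)]
  have h1 : ∀ k, christoffel (gramB B f) k i j v * gramB B f v k q =
      ∑ l, B (D2 f i j v) (D1 f l v) * ((gramB B f v)⁻¹ k l * gramB B f v k q) := by
    intro k
    rw [christoffel_eq hB hf, Finset.sum_mul]
    refine Finset.sum_congr rfl fun l _ => by ring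
  simp_rw [h1]
  rw [Finset.sum_comm]
  simp_rw [← Finset.mul_sum]
  have h4 : ∀ k, gramB B f v k q = gramB B f v q k := by
    intro k
    simp [gramB, hB (D1 f k v)]
  have h2 : ∀ l, ∑ k, (gramB B f v)⁻¹ k l * gramB B f v k q = if q = l then 1 else 0 := by
    intro l
    have h3 : ((gramB B f v) * (gramB B f v)⁻¹) q l = if q = l then 1 else 0 := by
      rw [Matrix.mul_nonsing_inv _ hdet, Matrix.one_apply]
    rw [Matrix.mul_apply] at h3
    rw [← h3]
    refine Finset.sum_congr rfl fun k _ => ?_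
    rw [h4, mul_comm]
  simp [h2]

omit hB in
lemma pd_mul {g h : Coord n → ℝ} {u : Coord n} (hg : DifferentiableAt ℝ g u)
    (hh : DifferentiableAt ℝ h u) (i : Fin n) :
    pd i (fun v => g v * h v) u = pd i g u * h u + g u * pd i h u := by
  unfold pd
  rw [fderiv_fun_mul hg hh]
  simp
  ring

omit hB in
lemma pd_sum {ι : Type*} {s : Finset ι} {g : ι → Coord n → ℝ} {u : Coord n}
    (hg : ∀ a ∈ s, DifferentiableAt ℝ (g a) u) (i : Fin n) :
    pd i (fun v => ∑ a ∈ s, g a v) u = ∑ a ∈ s, pd i (g a) u := by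
  unfold pd
  rw [fderiv_fun_sum hg]
  simp

omit hB in
lemma differentiableAt_prod {g : Fin n → Coord n → ℝ} {u : Coord n}
    (h : ∀ i, DifferentiableAt ℝ (g i) u) : DifferentiableAt ℝ (fun v => ∏ i, g i v) u := by
  classical
  exact (HasFDerivAt.finsetProd (u := Finset.univ) fun i _ => (h i).hasFDerivAt).differentiableAt

omit hB in
lemma differentiableAt_matrix {A : Coord n → Matrix (Fin n) (Fin n) ℝ} {u : Coord n}
    (h : ∀ i j, DifferentiableAt ℝ (fun v => A v i j) u) (hdet : IsUnit (A u).det) (i j : Fin n) :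
    DifferentiableAt ℝ (fun v => (A v)⁻¹ i j) u := by
  have hdet' : DifferentiableAt ℝ (fun v => (A v).det) u := by
    simp only [Matrix.det_apply]
    refine DifferentiableAt.fun_sum fun σ _ => ?_
    exact (differentiableAt_prod fun k => h _ _).const_smul _
  have hadj : ∀ i j, DifferentiableAt ℝ (fun v => (A v).adjugate i j) u := by
    intro i j
    simp only [Matrix.adjugate_apply, Matrix.det_apply]
    refine DifferentiableAt.fun_sum fun σ _ => ?_
    refine (differentiableAt_prod fun k => ?_).const_smul _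
    by_cases hk : σ k = j
    · simp [Matrix.updateRow_apply, hk]
    · simp only [Matrix.updateRow_apply, hk, if_false]
      exact h _ _
  have heq : ∀ v, (A v)⁻¹ i j = (A v).det⁻¹ * (A v).adjugate i j := by
    intro v
    rw [Matrix.inv_def, Matrix.smul_apply, Ring.inverse_eq_inv', smul_eq_mul]
  simp_rw [heq]
  exact (hdet'.inv hdet.ne_zero).mul (hadj i j)

omit hB in
lemma differentiableAt_B {g h : Coord n → V} {u : Coord n} (hg : DifferentiableAt ℝ g u)
    (hh : DifferentiableAt ℝ h u) : DifferentiableAt ℝ (fun v => B (g v) (h v)) u := by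
  have h1 : HasFDerivAt (fun v => B (g v)) (B.comp (fderiv ℝ g u)) u :=
    B.hasFDerivAt.comp u hg.hasFDerivAt
  exact (h1.clm_apply hh.hasFDerivAt).differentiableAt

omit hB in
lemma differentiableAt_gram {f : Coord n → V} {u : Coord n} (hf : ContDiffAt ℝ 2 f u)
    (i j : Fin n) : DifferentiableAt ℝ (fun v => gramB B f v i j) u := by
  have hd : ∀ a, DifferentiableAt ℝ (D1 f a) u := fun a =>
    (contDiffAt_D1 (m := 1) (k := 2) (by exact_mod_cast hf) (by norm_num) a).differentiableAt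
      (by simp)
  simp only [gramB, Matrix.of_apply]
  exact differentiableAt_B (hd i) (hd j)

lemma differentiableAt_christoffel {f : Coord n → V} {u : Coord n} (hf : ContDiffAt ℝ 3 f u)
    (hdet : IsUnit (gramB B f u).det) (k i j : Fin n) :
    DifferentiableAt ℝ (christoffel (gramB B f) k i j) u := by
  have h2 : ContDiffAt ℝ 2 f u := hf.of_le (by norm_num)
  have hev : ∀ᶠ v in 𝓝 u, ContDiffAt ℝ 2 f v := h2.eventually (by simp)
  have heq : christoffel (gramB B f) k i j =ᶠ[𝓝 u]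
      fun v => ∑ l, (gramB B f v)⁻¹ k l * B (D2 f i j v) (D1 f l v) := by
    filter_upwards [hev] with v hv
    exact christoffel_eq hB hv k i j
  refine DifferentiableAt.congr_of_eventuallyEq ?_ heq
  refine DifferentiableAt.fun_sum fun l _ => ?_
  refine (differentiableAt_matrix (fun i j => differentiableAt_gram h2 i j) hdet k l).mul ?_
  refine differentiableAt_B ?_ ?_
  · exact (contDiffAt_D2 (m := 1) (k := 3) (by exact_mod_cast hf) (by norm_num) i
      j).differentiableAt (by simp)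
  · exact (contDiffAt_D1 (m := 1) (k := 2) (by exact_mod_cast h2) (by norm_num)
      l).differentiableAt (by simp)

omit hB in
lemma eventually_det {f : Coord n → V} {u : Coord n} (hf : ContDiffAt ℝ 2 f u)
    (hdet : IsUnit (gramB B f u).det) : ∀ᶠ v in 𝓝 u, IsUnit (gramB B f v).det := by
  have hc : ContinuousAt (fun v => (gramB B f v).det) u := by
    have : DifferentiableAt ℝ (fun v => (gramB B f v).det) u := by
      simp only [Matrix.det_apply]
      refine DifferentiableAt.fun_sum fun σ _ => ?_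
      exact (differentiableAt_prod fun k => differentiableAt_gram hf _ _).const_smul _
    exact this.continuousAt
  filter_upwards [hc.eventually_ne hdet.ne_zero] with v hv
  exact isUnit_iff_ne_zero.mpr hv

lemma diff_identity {f : Coord n → V} {u : Coord n} (hf : ContDiffAt ℝ 3 f u)
    (hdet : IsUnit (gramB B f u).det) (p i j q : Fin n) :
    ∑ k, (pd p (christoffel (gramB B f) k i j) u * gramB B f u k q +
      christoffel (gramB B f) k i j u * pd p (fun v => gramB B f v k q) u) =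
      B (D3 f p i j u) (D1 f q u) + B (D2 f i j u) (D2 f p q u) := by
  have h2 : ContDiffAt ℝ 2 f u := hf.of_le (by norm_num)
  have hev : ∀ᶠ v in 𝓝 u, ContDiffAt ℝ 2 f v := h2.eventually (by simp)
  have heq : (fun v => ∑ k, christoffel (gramB B f) k i j v * gramB B f v k q) =ᶠ[𝓝 u]
      fun v => B (D2 f i j v) (D1 f q v) := by
    filter_upwards [hev, eventually_det h2 hdet] with v hv hv'
    exact sum_christoffel hB hv hv' i j q
  have hD2 : DifferentiableAt ℝ (D2 f i j) u :=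
    (contDiffAt_D2 (m := 1) (k := 3) (by exact_mod_cast hf) (by norm_num) i
      j).differentiableAt (by simp)
  have hD1 : DifferentiableAt ℝ (D1 f q) u :=
    (contDiffAt_D1 (m := 1) (k := 2) (by exact_mod_cast h2) (by norm_num)
      q).differentiableAt (by simp)
  have h3 : pd p (fun v => ∑ k, christoffel (gramB B f) k i j v * gramB B f v k q) u =
      pd p (fun v => B (D2 f i j v) (D1 f q v)) u := by
    unfold pd
    rw [heq.fderiv_eq]
  rw [fderiv_B hD2 hD1] at h3
  change _ = B (D3 f p i j u) (D1 f q u) + B (D2 f i j u) (D2 f p q u) at h3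
  rw [← h3]
  rw [pd_sum (g := fun k v => christoffel (gramB B f) k i j v * gramB B f v k q)
    fun k _ => (differentiableAt_christoffel hB hf hdet k i j).mul (differentiableAt_gram h2 k q)]
  refine Finset.sum_congr rfl fun k _ => ?_
  rw [pd_mul (differentiableAt_christoffel hB hf hdet k i j) (differentiableAt_gram h2 k q)]

omit hB in
lemma D3_symm {f : Coord n → V} {u : Coord n} (hf : ContDiffAt ℝ 3 f u) (i j k : Fin n) :
    D3 f i j k u = D3 f j i k u := by
  have h1 : ContDiffAt ℝ 2 (D1 f k) u := by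
    have := contDiffAt_D1 (m := 2) (k := 3) (f := f) (u := u) (by exact_mod_cast hf)
      (by norm_num) k
    exact_mod_cast this
  exact D2_symm h1 i j

/-- The derivative of the Gram matrix. -/
lemma pd_gram {f : Coord n → V} {u : Coord n} (hf : ContDiffAt ℝ 2 f u) (p k q : Fin n) :
    pd p (fun v => gramB B f v k q) u =
      B (D2 f p k u) (D1 f q u) + B (D2 f p q u) (D1 f k u) := by
  have hd : ∀ a, DifferentiableAt ℝ (D1 f a) u := fun a =>
    (contDiffAt_D1 (m := 1) (k := 2) (by exact_mod_cast hf) (by norm_num) a).differentiableAt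
      (by simp)
  simp only [gramB, Matrix.of_apply]
  rw [fderiv_B (hd k) (hd q)]
  rw [hB (D1 f k u)]
  rfl

/-- Gauss equation, in coordinates. -/
lemma gauss {f : Coord n → V} {u : Coord n} (hf : ContDiffAt ℝ 3 f u)
    (hdet : IsUnit (gramB B f u).det) (i j k q : Fin n) :
    ∑ l, riemann (gramB B f) l k i j u * gramB B f u l q =
      B (D2 f j k u - ∑ l, christoffel (gramB B f) l j k u • D1 f l u) (D2 f i q u) -
      B (D2 f i k u - ∑ l, christoffel (gramB B f) l i k u • D1 f l u) (D2 f j q u) := by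
  have h2 : ContDiffAt ℝ 2 f u := hf.of_le (by norm_num)
  have e1 := diff_identity hB hf hdet i j k q
  have e2 := diff_identity hB hf hdet j i k q
  rw [D3_symm hf j i k] at e2
  simp_rw [pd_gram hB h2] at e1 e2
  rw [Finset.sum_add_distrib] at e1 e2
  have e3 : ∀ a b c : Fin n,
      ∑ l, (∑ p, christoffel (gramB B f) l a p u * christoffel (gramB B f) p b c u) *
        gramB B f u l q =
      ∑ p, christoffel (gramB B f) p b c u * B (D2 f a p u) (D1 f q u) := by
    intro a b c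
    simp_rw [Finset.sum_mul]
    rw [Finset.sum_comm]
    refine Finset.sum_congr rfl fun p _ => ?_
    rw [← sum_christoffel hB h2 hdet a p q, Finset.mul_sum]
    refine Finset.sum_congr rfl fun l _ => by ring
  have e4 : ∀ l, riemann (gramB B f) l k i j u * gramB B f u l q =
      pd i (christoffel (gramB B f) l j k) u * gramB B f u l q -
      pd j (christoffel (gramB B f) l i k) u * gramB B f u l q +
      ((∑ p, christoffel (gramB B f) l i p u * christoffel (gramB B f) p j k u) *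
        gramB B f u l q -
      (∑ p, christoffel (gramB B f) l j p u * christoffel (gramB B f) p i k u) *
        gramB B f u l q) := by
    intro l
    unfold riemann
    rw [Finset.sum_sub_distrib]
    ring
  simp_rw [e4]
  rw [Finset.sum_add_distrib, Finset.sum_sub_distrib, Finset.sum_sub_distrib, e3 i j k, e3 j i k]
  have e5 : ∀ a b : Fin n, B (∑ l, christoffel (gramB B f) l a k u • D1 f l u) (D2 f b q u) =
      ∑ l, christoffel (gramB B f) l a k u * B (D2 f b q u) (D1 f l u) := by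
    intro a b
    rw [map_sum, sum_apply]
    refine Finset.sum_congr rfl fun l _ => ?_
    rw [map_smul, smul_apply, smul_eq_mul, hB]
  rw [map_sub, map_sub, sub_apply, sub_apply, e5, e5]
  have e6 : ∀ (a b : Fin n), ∑ l, christoffel (gramB B f) l a k u *
      (B (D2 f b l u) (D1 f q u) + B (D2 f b q u) (D1 f l u)) =
      ∑ l, christoffel (gramB B f) l a k u * B (D2 f b l u) (D1 f q u) +
      ∑ l, christoffel (gramB B f) l a k u * B (D2 f b q u) (D1 f l u) := by
    intro a b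
    rw [← Finset.sum_add_distrib]
    refine Finset.sum_congr rfl fun l _ => by ring
  rw [e6] at e1 e2
  linear_combination e1 - e2

end

end gauss

/-! ### Linear algebra of the Grassmannian -/

section linalg

open scoped ComplexConjugate

variable {ι : Type*} [Fintype ι] [DecidableEq ι]

/-- the complex space of lower left blocks -/
def block (P : Matrix ι ι ℂ) : Submodule ℂ (Matrix ι ι ℂ) where
  carrier := {Y | P * Y = 0 ∧ Y * P = Y}
  add_mem' := by
    rintro X Y ⟨h1, h2⟩ ⟨h3, h4⟩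
    refine ⟨?_, ?_⟩
    · rw [mul_add, h1, h3, add_zero]
    · rw [add_mul, h2, h4]
  zero_mem' := by simp
  smul_mem' := by
    rintro c X ⟨h1, h2⟩
    refine ⟨?_, ?_⟩
    · rw [Matrix.mul_smul, h1, smul_zero]
    · rw [Matrix.smul_mul, h2]

variable {η P : Matrix ι ι ℂ}

lemma tangent_PXP (hP : P * P = P) {X : Matrix ι ι ℂ} (hX : P * X + X * P = X) :
    P * X * P = 0 := by
  have h := congrArg (fun Z => P * Z) hX
  simp only [mul_add] at h
  rw [← mul_assoc, hP, ← mul_assoc] at h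
  exact add_eq_left.mp h

lemma tangent_XP {X : Matrix ι ι ℂ} (hX : P * X + X * P = X) : X * P = (1 - P) * X := by
  rw [sub_mul, one_mul]
  exact eq_sub_of_add_eq' hX

lemma lift_mem (hη : ηᴴ = η) (hη2 : η * η = 1) (hPη : Pᴴ * η = η * P) {Y : Matrix ι ι ℂ}
    (h1 : P * Y = 0) (h2 : Y * P = Y) : Y + η * Yᴴ * η ∈ tgt η P := by
  have hPη' : η * Pᴴ = P * η := by
    calc η * Pᴴ = η * (Pᴴ * η) * η := by rw [mul_assoc, mul_assoc, hη2, mul_one]
      _ = η * (η * P) * η := by rw [hPη]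
      _ = P * η := by rw [← mul_assoc, hη2, one_mul]
  refine ⟨?_, ?_⟩
  · simp only [Matrix.conjTranspose_add, Matrix.conjTranspose_mul,
      Matrix.conjTranspose_conjTranspose, hη, add_mul, mul_add]
    rw [← mul_assoc η (η * Yᴴ) η, ← mul_assoc η η, hη2, one_mul, mul_assoc η (Y * η), mul_assoc Y,
      hη2, mul_one, add_comm]
  · have h3 : P * (η * Yᴴ * η) = η * Yᴴ * η := by
      rw [← mul_assoc, ← mul_assoc, ← hPη', mul_assoc η Pᴴ, ← Matrix.conjTranspose_mul, h2]
    have h4 : η * Yᴴ * η * P = 0 := by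
      rw [mul_assoc, ← hPη, ← mul_assoc, mul_assoc η, ← Matrix.conjTranspose_mul, h1]
      simp
    rw [mul_add, add_mul, h1, h2, h3, h4]
    simp [add_comm]

lemma lift_mul (hPη : Pᴴ * η = η * P) {Y : Matrix ι ι ℂ}
    (h1 : P * Y = 0) (h2 : Y * P = Y) : (Y + η * Yᴴ * η) * P = Y := by
  have h4 : η * Yᴴ * η * P = 0 := by
    rw [mul_assoc, ← hPη, ← mul_assoc, mul_assoc η, ← Matrix.conjTranspose_mul, h1]
    simp
  rw [add_mul, h2, h4, add_zero]

lemma lift_of_mul (hη2 : η * η = 1) (hPη : Pᴴ * η = η * P) {X : Matrix ι ι ℂ}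
    (h1 : Xᴴ * η = η * X) (h2 : P * X + X * P = X) : X * P + η * (X * P)ᴴ * η = X := by
  have : η * (X * P)ᴴ * η = P * X := by
    rw [Matrix.conjTranspose_mul, mul_assoc, mul_assoc, h1, ← mul_assoc Pᴴ, hPη, ← mul_assoc,
      ← mul_assoc, hη2, one_mul]
  rw [this, add_comm, h2]

/-- `tgt` is real-linearly isomorphic to `block` -/
noncomputable def tangentEquiv (hη : ηᴴ = η) (hη2 : η * η = 1) (hP : P * P = P)
    (hPη : Pᴴ * η = η * P) : block P ≃ₗ[ℝ] tgt η P where
  toFun Y := ⟨(Y : Matrix ι ι ℂ) + η * (Y : Matrix ι ι ℂ)ᴴ * η, lift_mem hη hη2 hPη Y.2.1 Y.2.2⟩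
  map_add' Y Y' := by
    ext1
    simp only [Submodule.coe_add, Matrix.conjTranspose_add, mul_add, add_mul]
    abel
  map_smul' c Y := by
    ext1
    simp [Matrix.conjTranspose_smul]
  invFun X := ⟨(X : Matrix ι ι ℂ) * P, by
    refine ⟨?_, ?_⟩
    · rw [← mul_assoc, tangent_PXP hP X.2.2]
    · rw [mul_assoc, hP]⟩
  left_inv Y := by
    ext1
    exact lift_mul hPη Y.2.1 Y.2.2
  right_inv X := by
    ext1
    exact lift_of_mul hη2 hPη X.2.1 X.2.2

lemma mem_block {Y : Matrix ι ι ℂ} : Y ∈ block P ↔ P * Y = 0 ∧ Y * P = Y := Iff.rfl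

omit [DecidableEq ι] in
lemma mem_tangent {X : Matrix ι ι ℂ} :
    X ∈ tgt η P ↔ Xᴴ * η = η * X ∧ P * X + X * P = X := Iff.rfl

omit [DecidableEq ι] in
lemma mulVec_ker (x : LinearMap.ker P.mulVecLin) : P *ᵥ (x : ι → ℂ) = 0 :=
  LinearMap.mem_ker.mp x.2

omit [DecidableEq ι] in
lemma mulVec_range (hP : P * P = P) (x : LinearMap.range P.mulVecLin) :
    P *ᵥ (x : ι → ℂ) = x := by
  obtain ⟨y, hy⟩ := x.2
  rw [← hy]
  simp [Matrix.mulVec_mulVec, hP]

omit [DecidableEq ι] in
lemma block_mulVec_mem {Y : Matrix ι ι ℂ} (h : P * Y = 0) (x : ι → ℂ) :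
    Y *ᵥ x ∈ LinearMap.ker P.mulVecLin := by
  rw [LinearMap.mem_ker, Matrix.mulVecLin_apply, Matrix.mulVec_mulVec, h, Matrix.zero_mulVec]

/-- `block` is isomorphic to the linear maps from the range to the kernel -/
noncomputable def blockEquiv (hP : P * P = P) :
    block P ≃ₗ[ℂ] (LinearMap.range P.mulVecLin →ₗ[ℂ] LinearMap.ker P.mulVecLin) where
  toFun Y :=
    { toFun := fun x => ⟨(Y : Matrix ι ι ℂ) *ᵥ (x : ι → ℂ), block_mulVec_mem (mem_block.mp Y.2).1 _⟩
      map_add' := fun x y => Subtype.ext (Matrix.mulVec_add _ _ _)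
      map_smul' := fun c x => Subtype.ext (Matrix.mulVec_smul _ _ _) }
  map_add' Y Y' := by
    apply LinearMap.ext
    intro x
    exact Subtype.ext (Matrix.add_mulVec _ _ _)
  map_smul' c Y := by
    apply LinearMap.ext
    intro x
    exact Subtype.ext (Matrix.smul_mulVec _ _ _)
  invFun φ := ⟨LinearMap.toMatrix' ((LinearMap.ker P.mulVecLin).subtype ∘ₗ φ ∘ₗ
      P.mulVecLin.rangeRestrict), by
    rw [mem_block]
    refine ⟨?_, ?_⟩
    · apply Matrix.toLin'.injective
      apply LinearMap.ext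
      intro x
      rw [Matrix.toLin'_mul, Matrix.toLin'_toMatrix']
      simp only [LinearMap.comp_apply, Matrix.toLin'_apply, Submodule.subtype_apply]
      rw [mulVec_ker]
      simp
    · apply Matrix.toLin'.injective
      apply LinearMap.ext
      intro x
      rw [Matrix.toLin'_mul, Matrix.toLin'_toMatrix']
      simp only [LinearMap.comp_apply, Matrix.toLin'_apply, Submodule.subtype_apply]
      congr 2
      apply Subtype.ext
      change P *ᵥ (P *ᵥ x) = P *ᵥ x
      rw [Matrix.mulVec_mulVec, hP]⟩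
  left_inv Y := by
    apply Subtype.ext
    apply Matrix.toLin'.injective
    apply LinearMap.ext
    intro x
    rw [Matrix.toLin'_toMatrix']
    change (Y : Matrix ι ι ℂ) *ᵥ (P *ᵥ x) = (Y : Matrix ι ι ℂ) *ᵥ x
    rw [Matrix.mulVec_mulVec, (mem_block.mp Y.2).2]
  right_inv φ := by
    apply LinearMap.ext
    intro x
    apply Subtype.ext
    change LinearMap.toMatrix' ((LinearMap.ker P.mulVecLin).subtype ∘ₗ φ ∘ₗ
      P.mulVecLin.rangeRestrict) *ᵥ (x : ι → ℂ) = _
    rw [← Matrix.toLin'_apply, Matrix.toLin'_toMatrix']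
    simp only [LinearMap.comp_apply, Submodule.subtype_apply]
    congr 2
    apply Subtype.ext
    exact mulVec_range hP x

lemma finrank_block (hP : P * P = P) {m : ℕ} (hr : P.rank = 2) (hc : Fintype.card ι = 2 + m) :
    Module.finrank ℂ (block P) = 2 * m := by
  rw [(blockEquiv hP).finrank_eq, Module.finrank_linearMap]
  have h1 : Module.finrank ℂ (LinearMap.range P.mulVecLin) = 2 := hr
  have h2 := LinearMap.finrank_range_add_finrank_ker P.mulVecLin
  rw [h1, Module.finrank_fintype_fun_eq_card, hc] at h2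
  rw [h1]
  have h3 : Module.finrank ℂ (LinearMap.ker P.mulVecLin) = m := by omega
  rw [h3]

lemma finrank_tangent (hη : ηᴴ = η) (hη2 : η * η = 1) (hP : P * P = P)
    (hPη : Pᴴ * η = η * P) {m : ℕ} (hr : P.rank = 2) (hc : Fintype.card ι = 2 + m) :
    Module.finrank ℝ (tgt η P) = 4 * m := by
  rw [← (tangentEquiv hη hη2 hP hPη).finrank_eq, finrank_real_of_complex, finrank_block hP hr hc]
  ring

open scoped MatrixOrder in
lemma trace_pos {ε : ℝ} (hε : ε ^ 2 = 1) (hH : (η * P + (ε : ℂ) • (η * (1 - P))).PosDef)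
    {X : Matrix ι ι ℂ} (hX : X ∈ tgt η P) (hne : X ≠ 0) :
    0 < ε * (X * X).trace.re := by
  obtain ⟨h1, h2⟩ := mem_tangent.mp hX
  obtain ⟨H, hHdef⟩ : ∃ H, H = η * P + (ε : ℂ) • (η * (1 - P)) := ⟨_, rfl⟩
  rw [← hHdef] at hH
  have hε' : (ε : ℂ) * (ε : ℂ) = 1 := by
    rw [← Complex.ofReal_mul, ← sq, hε]; simp
  have hXX : X - X * P = P * X := by rw [sub_eq_iff_eq_add]; exact h2.symm
  have hXX' : (1 - P) * X = X * P := (tangent_XP h2).symm
  have key : Xᴴ * H = (ε : ℂ) • (H * X) := by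
    have e1 : Xᴴ * H = η * (X * P) + (ε : ℂ) • (η * (P * X)) := by
      rw [hHdef, mul_add, Matrix.mul_smul, ← mul_assoc, h1, mul_assoc, ← mul_assoc Xᴴ, h1,
        mul_assoc η X, mul_sub, mul_one, hXX]
    have e2 : H * X = η * (P * X) + (ε : ℂ) • (η * (X * P)) := by
      rw [hHdef, add_mul, Matrix.smul_mul, mul_assoc, mul_assoc, hXX']
    rw [e1, e2, smul_add, smul_smul, hε', one_smul, add_comm]
  obtain ⟨C, hC⟩ := CStarAlgebra.nonneg_iff_eq_star_mul_self.mp hH.posSemidef.nonneg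
  rw [Matrix.star_eq_conjTranspose] at hC
  have hCu : IsUnit C.det := by
    have h3 : IsUnit H.det := (Matrix.isUnit_iff_isUnit_det _).mp hH.isUnit
    rw [hC, Matrix.det_mul] at h3
    exact isUnit_of_mul_isUnit_right h3
  have hC1 : C⁻¹ * C = 1 := Matrix.nonsing_inv_mul _ hCu
  have hC2 : C * C⁻¹ = 1 := Matrix.mul_nonsing_inv _ hCu
  have hC3 : (C⁻¹)ᴴ * Cᴴ = 1 := by
    rw [← Matrix.conjTranspose_mul, hC2, Matrix.conjTranspose_one]
  have hX' : (C * X * C⁻¹)ᴴ * (C * X * C⁻¹) = (ε : ℂ) • (C * (X * X) * C⁻¹) := by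
    calc (C * X * C⁻¹)ᴴ * (C * X * C⁻¹) = (C⁻¹)ᴴ * (Xᴴ * (Cᴴ * C)) * X * C⁻¹ := by
          rw [Matrix.conjTranspose_mul, Matrix.conjTranspose_mul]
          simp only [mul_assoc]
      _ = (C⁻¹)ᴴ * ((ε : ℂ) • ((Cᴴ * C) * X)) * X * C⁻¹ := by rw [← hC, key]
      _ = (ε : ℂ) • (((C⁻¹)ᴴ * Cᴴ) * (C * (X * X) * C⁻¹)) := by
          simp only [Matrix.mul_smul, Matrix.smul_mul, mul_assoc]
      _ = (ε : ℂ) • (C * (X * X) * C⁻¹) := by rw [hC3, one_mul]
  have htr : ((C * X * C⁻¹)ᴴ * (C * X * C⁻¹)).trace = (ε : ℂ) * (X * X).trace := by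
    rw [hX', Matrix.trace_smul, Matrix.trace_mul_comm, ← mul_assoc, hC1, one_mul, smul_eq_mul]
  have hpos : 0 ≤ ((C * X * C⁻¹)ᴴ * (C * X * C⁻¹)).trace :=
    (Matrix.posSemidef_conjTranspose_mul_self _).trace_nonneg
  have hne' : ((C * X * C⁻¹)ᴴ * (C * X * C⁻¹)).trace ≠ 0 := by
    intro h0
    rw [Matrix.trace_conjTranspose_mul_self_eq_zero_iff] at h0
    apply hne
    calc X = (C⁻¹ * C) * X * (C⁻¹ * C) := by rw [hC1, one_mul, mul_one]
      _ = C⁻¹ * (C * X * C⁻¹) * C := by simp only [mul_assoc]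
      _ = 0 := by rw [h0]; simp
  have hpos' := lt_of_le_of_ne hpos (Ne.symm hne')
  rw [htr, Complex.lt_def] at hpos'
  have := hpos'.1
  simpa using this

/-- the second fundamental form of the Grassmannian in the space of matrices -/
def sff (P X Y : Matrix ι ι ℂ) : Matrix ι ι ℂ := (X * Y + Y * X) * (1 - 2 * P)

omit [DecidableEq ι] in
lemma XYP {X Y : Matrix ι ι ℂ} (hX : P * X + X * P = X) (hY : P * Y + Y * P = Y) :
    P * (X * Y) = X * Y * P := by
  have h1 : P * X = X - X * P := by rw [eq_sub_iff_add_eq]; exact hX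
  have h2 : P * Y = Y - Y * P := by rw [eq_sub_iff_add_eq]; exact hY
  calc P * (X * Y) = (P * X) * Y := by rw [mul_assoc]
    _ = X * Y - X * (P * Y) := by rw [h1, sub_mul, mul_assoc]
    _ = X * Y - X * (Y - Y * P) := by rw [h2]
    _ = X * Y * P := by rw [mul_sub, ← mul_assoc]; abel

lemma one_sub_two_sq (hP : P * P = P) : (1 - 2 * P) * (1 - 2 * P) = (1 : Matrix ι ι ℂ) := by
  have : (1 - 2 * P) * (1 - 2 * P) = 1 - 4 * P + 4 * (P * P) := by noncomm_ring
  rw [this, hP]
  abel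

lemma comm_proj {S : Matrix ι ι ℂ} (hS : P * S = S * P) :
    (1 - 2 * P) * S = S * (1 - 2 * P) := by
  have : (1 - 2 * P) * S = S - 2 * (P * S) := by noncomm_ring
  rw [this, hS]
  noncomm_ring

/-- The Gauss equation of the Grassmannian: its curvature is the double bracket. -/
lemma gauss_alg (hP : P * P = P) {X Y Z W : Matrix ι ι ℂ} (hX : P * X + X * P = X)
    (hY : P * Y + Y * P = Y) (hZ : P * Z + Z * P = Z) (hW : P * W + W * P = W) :
    (sff P Y Z * sff P X W).trace - (sff P X Z * sff P Y W).trace =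
      (((X * Y - Y * X) * Z - Z * (X * Y - Y * X)) * W).trace := by
  have key : ∀ {A B C D : Matrix ι ι ℂ}, P * A + A * P = A → P * B + B * P = B →
      P * C + C * P = C → P * D + D * P = D →
      sff P A B * sff P C D = (A * B + B * A) * (C * D + D * C) := by
    intro A B C D hA hB hC hD
    have hS : P * (C * D + D * C) = (C * D + D * C) * P := by
      rw [mul_add, XYP hC hD, XYP hD hC, add_mul]
    unfold sff
    calc (A * B + B * A) * (1 - 2 * P) * ((C * D + D * C) * (1 - 2 * P))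
        = (A * B + B * A) * (((1 - 2 * P) * (C * D + D * C)) * (1 - 2 * P)) := by
          simp only [mul_assoc]
      _ = (A * B + B * A) * ((C * D + D * C) * ((1 - 2 * P) * (1 - 2 * P))) := by
          rw [comm_proj hS]; simp only [mul_assoc]
      _ = _ := by rw [one_sub_two_sq hP, mul_one]
  rw [key hY hZ hX hW, key hX hZ hY hW]
  have e1 : (Y * Z * (W * X)).trace = (X * Y * Z * W).trace := by
    rw [← mul_assoc, Matrix.trace_mul_comm]
    simp only [mul_assoc]
  have e2 : (Z * Y * (X * W)).trace = (Z * Y * X * W).trace := by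
    simp only [mul_assoc]
  have e3 : (Y * Z * (X * W)).trace = (Z * X * (W * Y)).trace := by
    rw [mul_assoc, Matrix.trace_mul_comm]
    simp only [mul_assoc]
  have e4 : (Z * Y * (W * X)).trace = (X * Z * (Y * W)).trace := by
    rw [← mul_assoc, Matrix.trace_mul_comm]
    simp only [mul_assoc]
  have e5 : (X * Z * (W * Y)).trace = (Y * X * Z * W).trace := by
    rw [← mul_assoc, Matrix.trace_mul_comm]
    simp only [mul_assoc]
  simp only [add_mul, mul_add, sub_mul, mul_sub, Matrix.trace_add, Matrix.trace_sub, e1, e3, e4,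
    e5]
  simp only [← mul_assoc]
  ring

lemma bracket_mem (X Y Z : Matrix ι ι ℂ) (hX : X ∈ tgt η P) (hY : Y ∈ tgt η P)
    (hZ : Z ∈ tgt η P) :
    (X * Y - Y * X) * Z - Z * (X * Y - Y * X) ∈ tgt η P := by
  obtain ⟨h1, h2⟩ := mem_tangent.mp hX
  obtain ⟨h3, h4⟩ := mem_tangent.mp hY
  obtain ⟨h5, h6⟩ := mem_tangent.mp hZ
  obtain ⟨K, hK⟩ : ∃ K, K = X * Y - Y * X := ⟨_, rfl⟩
  have hKη : Kᴴ * η = - (η * K) := by
    rw [hK, Matrix.conjTranspose_sub, Matrix.conjTranspose_mul, Matrix.conjTranspose_mul, sub_mul,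
      mul_assoc, mul_assoc, h1, h3, ← mul_assoc, ← mul_assoc, h3, h1, mul_sub, mul_assoc,
      mul_assoc]
    abel
  have hKP : P * K = K * P := by
    rw [hK, mul_sub, sub_mul, XYP h2 h4, XYP h4 h2]
  rw [← hK, mem_tangent]
  refine ⟨?_, ?_⟩
  · rw [Matrix.conjTranspose_sub, Matrix.conjTranspose_mul, Matrix.conjTranspose_mul, sub_mul,
      mul_assoc, mul_assoc, hKη, h5, mul_neg, ← mul_assoc, ← mul_assoc, h5, hKη, mul_sub,
      ← mul_assoc, ← mul_assoc, neg_mul]
    abel
  · have a1 : (P * K) * Z = K * (P * Z) := by rw [hKP, mul_assoc]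
    have a2 : Z * (K * P) = (Z * P) * K := by rw [← hKP, mul_assoc]
    calc P * (K * Z - Z * K) + (K * Z - Z * K) * P
        = (P * K) * Z + K * (Z * P) - ((P * Z) * K + Z * (K * P)) := by noncomm_ring
      _ = K * (P * Z) + K * (Z * P) - ((P * Z) * K + (Z * P) * K) := by rw [a1, a2]
      _ = K * (P * Z + Z * P) - (P * Z + Z * P) * K := by rw [mul_add, add_mul]
      _ = K * Z - Z * K := by rw [h6]

/-- the (indefinite) Hermitian form -/
def hf (η : Matrix ι ι ℂ) (a b : ι → ℂ) : ℂ := star a ⬝ᵥ (η *ᵥ b)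

omit [DecidableEq ι] in
lemma hf_mul_left {M : Matrix ι ι ℂ} (hM : Mᴴ * η = η * M) (a b : ι → ℂ) :
    hf η (M *ᵥ a) b = hf η a (M *ᵥ b) := by
  unfold hf
  rw [Matrix.star_mulVec, ← Matrix.dotProduct_mulVec, Matrix.mulVec_mulVec, Matrix.mulVec_mulVec,
    hM]

omit [DecidableEq ι] in
lemma hf_add_right (a b c : ι → ℂ) : hf η a (b + c) = hf η a b + hf η a c := by
  simp [hf, Matrix.mulVec_add]

omit [DecidableEq ι] in
lemma hf_smul_right (z : ℂ) (a b : ι → ℂ) : hf η a (z • b) = z * hf η a b := by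
  simp [hf, Matrix.mulVec_smul]

omit [DecidableEq ι] in
lemma hf_smul_left (z : ℂ) (a b : ι → ℂ) : hf η (z • a) b = conj z * hf η a b := by
  simp [hf]

omit [DecidableEq ι] in
lemma hf_zero_right (a : ι → ℂ) : hf η a 0 = 0 := by
  simp [hf]

omit [DecidableEq ι] in
lemma hf_zero_left (a : ι → ℂ) : hf η 0 a = 0 := by
  simp [hf]

omit [DecidableEq ι] in
lemma hf_conj (hη : ηᴴ = η) (a b : ι → ℂ) : conj (hf η a b) = hf η b a := by
  unfold hf
  rw [← Complex.star_def, Matrix.star_dotProduct, star_star, Matrix.star_mulVec, hη,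
    ← Matrix.dotProduct_mulVec]

/-- the test tgt vectors -/
def tv (η : Matrix ι ι ℂ) (v a : ι → ℂ) : Matrix ι ι ℂ :=
  (Matrix.vecMulVec v (star a) + Matrix.vecMulVec a (star v)) * η

omit [DecidableEq ι] in
lemma tv_mulVec (v a x : ι → ℂ) : tv η v a *ᵥ x = hf η a x • v + hf η v x • a := by
  unfold tv hf
  rw [← Matrix.mulVec_mulVec, Matrix.add_mulVec, Matrix.vecMulVec_mulVec, Matrix.vecMulVec_mulVec]
  simp

omit [DecidableEq ι] in
lemma tv_add (v a b : ι → ℂ) : tv η v (a + b) = tv η v a + tv η v b := by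
  unfold tv
  rw [star_add, Matrix.vecMulVec_add, Matrix.add_vecMulVec, ← add_mul]
  congr 1
  abel

omit [DecidableEq ι] in
lemma tv_smul (c : ℝ) (v a : ι → ℂ) : tv η v ((c : ℂ) • a) = c • tv η v a := by
  unfold tv
  rw [star_smul, Complex.star_def, Complex.conj_ofReal, Matrix.vecMulVec_smul,
    Matrix.smul_vecMulVec, ← smul_add, Matrix.smul_mul]
  ext i j
  simp

lemma tv_mem (hη : ηᴴ = η) (hPη : Pᴴ * η = η * P) {v a : ι → ℂ} (hv : P *ᵥ v = 0)
    (ha : P *ᵥ a = a) : tv η v a ∈ tgt η P := by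
  obtain ⟨A, hA⟩ : ∃ A, A = Matrix.vecMulVec v (star a) + Matrix.vecMulVec a (star v) := ⟨_, rfl⟩
  have hAH : Aᴴ = A := by
    rw [hA, Matrix.conjTranspose_add, Matrix.conjTranspose_vecMulVec,
      Matrix.conjTranspose_vecMulVec, star_star, star_star, add_comm]
  have hPA : P * A = Matrix.vecMulVec a (star v) := by
    rw [hA, mul_add, Matrix.mul_vecMulVec, Matrix.mul_vecMulVec, hv, ha]
    simp
  have hAP : A * Pᴴ = Matrix.vecMulVec v (star a) := by
    have := congrArg Matrix.conjTranspose hPA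
    rw [Matrix.conjTranspose_mul, hAH, Matrix.conjTranspose_vecMulVec, star_star] at this
    exact this
  have htv : tv η v a = A * η := by rw [hA]; rfl
  rw [mem_tangent, htv]
  refine ⟨?_, ?_⟩
  · rw [Matrix.conjTranspose_mul, hη, hAH, mul_assoc]
  · rw [← mul_assoc, hPA, mul_assoc, ← hPη, ← mul_assoc, hAP, ← add_mul, hA, add_comm]

omit [DecidableEq ι] in
lemma trace_tv_mul (v a : ι → ℂ) (M : Matrix ι ι ℂ) :
    (tv η v a * M).trace = hf η a (M *ᵥ v) + hf η v (M *ᵥ a) := by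
  unfold tv hf
  rw [mul_assoc, add_mul, Matrix.trace_add, Matrix.vecMulVec_mul, Matrix.vecMulVec_mul,
    Matrix.trace_vecMulVec, Matrix.trace_vecMulVec, dotProduct_comm, dotProduct_comm a,
    ← Matrix.dotProduct_mulVec, ← Matrix.dotProduct_mulVec, Matrix.mulVec_mulVec,
    Matrix.mulVec_mulVec]

omit [DecidableEq ι] in
lemma trace_tv_zero {M : Matrix ι ι ℂ} (hM : Mᴴ * η = η * M) {v : ι → ℂ} (hv : M *ᵥ v = 0)
    (a : ι → ℂ) : (tv η v a * M).trace = 0 := by
  rw [trace_tv_mul, hv, hf_zero_right, ← hf_mul_left hM, hv, hf_zero_left, add_zero]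

lemma cplx_mem (hP : P * P = P) (hPη : Pᴴ * η = η * P) {X : Matrix ι ι ℂ}
    (hX : X ∈ tgt η P) : cplxG P X ∈ tgt η P := by
  obtain ⟨h1, h2⟩ := mem_tangent.mp hX
  rw [mem_tangent]
  unfold cplxG
  refine ⟨?_, ?_⟩
  · rw [Matrix.conjTranspose_smul, Matrix.conjTranspose_sub, Matrix.conjTranspose_mul,
      Matrix.conjTranspose_mul, Matrix.smul_mul, sub_mul, mul_assoc, mul_assoc, h1, hPη,
      Matrix.mul_smul, mul_sub, ← mul_assoc, ← mul_assoc, hPη, h1, Complex.star_def,
      Complex.conj_I, neg_smul, ← smul_neg, neg_sub, mul_assoc, mul_assoc]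
  · rw [Matrix.mul_smul, Matrix.smul_mul, ← smul_add]
    congr 1
    have h3 := tangent_PXP hP h2
    rw [mul_sub, sub_mul, ← mul_assoc, ← mul_assoc, h3, hP, mul_assoc X, hP]
    abel


/-! ### The contradiction -/

section contra

lemma hf_pos_range {ε : ℝ} (hH : (η * P + (ε : ℂ) • (η * (1 - P))).PosDef) {a : ι → ℂ}
    (ha : P *ᵥ a = a) (h0 : a ≠ 0) : hf η a a ≠ 0 := by
  have h := hH.dotProduct_mulVec_pos h0
  have e : (η * P + (ε : ℂ) • (η * (1 - P))) *ᵥ a = η *ᵥ a := by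
    rw [Matrix.add_mulVec, Matrix.smul_mulVec, ← Matrix.mulVec_mulVec, ← Matrix.mulVec_mulVec,
      Matrix.sub_mulVec, Matrix.one_mulVec, ha]
    simp
  rw [e] at h
  exact ne_of_gt h

lemma hf_ne_ker {ε : ℝ} (hH : (η * P + (ε : ℂ) • (η * (1 - P))).PosDef) {a : ι → ℂ}
    (ha : P *ᵥ a = 0) (h0 : a ≠ 0) : hf η a a ≠ 0 := by
  have h := hH.dotProduct_mulVec_pos h0
  have e : (η * P + (ε : ℂ) • (η * (1 - P))) *ᵥ a = (ε : ℂ) • (η *ᵥ a) := by
    rw [Matrix.add_mulVec, Matrix.smul_mulVec, ← Matrix.mulVec_mulVec, ← Matrix.mulVec_mulVec,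
      Matrix.sub_mulVec, Matrix.one_mulVec, ha]
    simp
  rw [e, dotProduct_smul] at h
  intro h1
  unfold hf at h1
  rw [h1] at h
  simp at h

/-- the data for the contradiction -/
lemma exists_data (hη2 : η * η = 1) (hP : P * P = P)
    (hPη : Pᴴ * η = η * P) {m : ℕ} (hr : P.rank = 2) (hc : Fintype.card ι = 2 + m) (hm : 3 ≤ m)
    {N : Matrix ι ι ℂ} (hN : N ∈ tgt η P) (hN0 : N ≠ 0) :
    ∃ v u q r : ι → ℂ, P *ᵥ v = 0 ∧ N *ᵥ v = 0 ∧ v ≠ 0 ∧ P *ᵥ u = 0 ∧ N *ᵥ u = q ∧ q ≠ 0 ∧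
      P *ᵥ q = q ∧ P *ᵥ r = r ∧ r ≠ 0 ∧ hf η q r = 0 := by
  obtain ⟨hN1, hN2⟩ := mem_tangent.mp hN
  have h1 : Module.finrank ℂ (LinearMap.range P.mulVecLin) = 2 := hr
  have h2 := LinearMap.finrank_range_add_finrank_ker P.mulVecLin
  rw [h1, Module.finrank_fintype_fun_eq_card, hc] at h2
  have h3 : Module.finrank ℂ (LinearMap.ker P.mulVecLin) = m := by omega
  -- N maps the kernel of P to the range
  have hNker : ∀ x, P *ᵥ x = 0 → P *ᵥ (N *ᵥ x) = N *ᵥ x := by
    intro x hx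
    rw [Matrix.mulVec_mulVec]
    have : P * N = N - N * P := by rw [eq_sub_iff_add_eq]; exact hN2
    rw [this, Matrix.sub_mulVec, ← Matrix.mulVec_mulVec, hx]
    simp
  -- v
  obtain ⟨v, hv1, hv2, hv3⟩ : ∃ v : ι → ℂ, P *ᵥ v = 0 ∧ N *ᵥ v = 0 ∧ v ≠ 0 := by
    let φ : LinearMap.ker P.mulVecLin →ₗ[ℂ] LinearMap.range P.mulVecLin :=
      { toFun := fun x => ⟨N *ᵥ (x : ι → ℂ), ⟨N *ᵥ (x : ι → ℂ), hNker _ (mulVec_ker x)⟩⟩
        map_add' := fun x y => Subtype.ext (Matrix.mulVec_add _ _ _)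
        map_smul' := fun c x => Subtype.ext (Matrix.mulVec_smul _ _ _) }
    have h4 : Module.finrank ℂ (LinearMap.range P.mulVecLin) <
        Module.finrank ℂ (LinearMap.ker P.mulVecLin) := by rw [h1, h3]; omega
    have h5 : LinearMap.ker φ ≠ ⊥ := LinearMap.ker_ne_bot_of_finrank_lt h4
    obtain ⟨x, hx, hx0⟩ := (Submodule.ne_bot_iff _).mp h5
    refine ⟨x, mulVec_ker x, ?_, fun h => hx0 (Subtype.ext h)⟩
    exact congrArg Subtype.val (LinearMap.mem_ker.mp hx)
  -- u
  obtain ⟨u, hu1, hu2⟩ : ∃ u : ι → ℂ, P *ᵥ u = 0 ∧ N *ᵥ u ≠ 0 := by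
    by_contra hcon
    push Not at hcon
    apply hN0
    have e1 : N * (1 - P) = 0 := by
      apply Matrix.toLin'.injective
      apply LinearMap.ext
      intro x
      rw [Matrix.toLin'_apply, ← Matrix.mulVec_mulVec, hcon]
      · simp
      · rw [Matrix.mulVec_mulVec, mul_sub, mul_one, hP, sub_self, Matrix.zero_mulVec]
    have e2 : P * N = 0 := by
      have : P * N = N * (1 - P) := by
        rw [mul_sub, mul_one, eq_sub_iff_add_eq]; exact hN2
      rw [this, e1]
    have e3 : N * P = 0 := by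
      have h6 : (P * N)ᴴ * η = 0 := by rw [e2]; simp
      rw [Matrix.conjTranspose_mul, mul_assoc, hPη, ← mul_assoc, hN1, mul_assoc] at h6
      calc N * P = (η * η) * (N * P) := by rw [hη2, one_mul]
        _ = η * (η * (N * P)) := by rw [mul_assoc]
        _ = 0 := by rw [h6, mul_zero]
    rw [← hN2, e2, e3, add_zero]
  -- r
  have hq := hNker u hu1
  obtain ⟨r, hr1, hr2, hr3⟩ : ∃ r : ι → ℂ, P *ᵥ r = r ∧ r ≠ 0 ∧ hf η (N *ᵥ u) r = 0 := by
    let ψ : LinearMap.range P.mulVecLin →ₗ[ℂ] ℂ :=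
      { toFun := fun x => hf η (N *ᵥ u) (x : ι → ℂ)
        map_add' := fun x y => hf_add_right _ _ _
        map_smul' := fun c x => hf_smul_right _ _ _ }
    have h4 : Module.finrank ℂ ℂ < Module.finrank ℂ (LinearMap.range P.mulVecLin) := by
      rw [h1, Module.finrank_self]; omega
    have h5 : LinearMap.ker ψ ≠ ⊥ := LinearMap.ker_ne_bot_of_finrank_lt h4
    obtain ⟨x, hx, hx0⟩ := (Submodule.ne_bot_iff _).mp h5
    refine ⟨x, mulVec_range hP x, fun h => hx0 (Subtype.ext h), ?_⟩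
    exact LinearMap.mem_ker.mp hx
  exact ⟨v, u, N *ᵥ u, r, hv1, hv2, hv3, hu1, rfl, hu2, hq, hr1, hr2, hr3⟩

/-- the final contradiction -/
lemma contradiction_alg {ε : ℝ} (hη : ηᴴ = η) (hPη : Pᴴ * η = η * P)
    (hH : (η * P + (ε : ℂ) • (η * (1 - P))).PosDef)
    {N : Matrix ι ι ℂ} {v u q r : ι → ℂ} (hv : P *ᵥ v = 0)
    (hv0 : v ≠ 0) (hu : P *ᵥ u = 0) (huq : N *ᵥ u = q) (hq0 : q ≠ 0) (hq : P *ᵥ q = q)
    (hr : P *ᵥ r = r) (hr0 : r ≠ 0) (hqr : hf η q r = 0) {z w : ℂ} (hz : z ≠ 0) (hw : w ≠ 0)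
    (t : ℝ)
    (h : (tv η v (z • q) * tv η v (w • r) - tv η v (w • r) * tv η v (z • q)) * (- cplxG P N) -
      (- cplxG P N) * (tv η v (z • q) * tv η v (w • r) - tv η v (w • r) * tv η v (z • q)) =
      t • N) : False := by
  have hrq : hf η r q = 0 := by rw [← hf_conj hη, hqr, map_zero]
  have orth : ∀ a b : ι → ℂ, P *ᵥ a = 0 → P *ᵥ b = b → hf η a b = 0 := by
    intro a b ha hb
    rw [← hb, ← hf_mul_left hPη, ha, hf_zero_left]
  have orth' : ∀ a b : ι → ℂ, P *ᵥ a = a → P *ᵥ b = 0 → hf η a b = 0 := by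
    intro a b ha hb
    rw [← hf_conj hη, orth b a hb ha, map_zero]
  have hvv := hf_ne_ker hH hv hv0
  have hqq := hf_pos_range hH hq hq0
  have hrr := hf_pos_range hH hr hr0
  have hXu : (- cplxG P N) *ᵥ u = Complex.I • q := by
    unfold cplxG
    rw [Matrix.neg_mulVec, Matrix.smul_mulVec, Matrix.sub_mulVec, ← Matrix.mulVec_mulVec,
      ← Matrix.mulVec_mulVec, hu, huq, hq]
    simp
  have hKu : (tv η v (z • q) * tv η v (w • r) - tv η v (w • r) * tv η v (z • q)) *ᵥ u = 0 := by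
    rw [Matrix.sub_mulVec, ← Matrix.mulVec_mulVec, ← Matrix.mulVec_mulVec]
    simp only [tv_mulVec, hf_smul_left, orth' r u hr hu, orth' q u hq hu, hf_add_right,
      hf_smul_right, hqr, hrq, orth v q hv hq, orth v r hv hr]
    simp
  have h1 := congrArg (fun M => hf η r (M *ᵥ u)) h
  simp only [Matrix.sub_mulVec, ← Matrix.mulVec_mulVec] at h1 hKu
  rw [hKu, hXu, Matrix.mulVec_zero, sub_zero, Matrix.smul_mulVec, huq] at h1
  have hR : hf η r (t • q) = 0 := by
    have : t • q = (t : ℂ) • q := by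
      ext i
      simp
    rw [this, hf_smul_right, hrq, mul_zero]
  rw [hR] at h1
  have hsub : ∀ a b : ι → ℂ, a - b = a + (-1 : ℂ) • b := by
    intro a b
    rw [neg_smul, one_smul, sub_eq_add_neg]
  rw [hsub] at h1
  simp only [tv_mulVec, hf_smul_left, orth v q hv hq, hf_add_right,
    hf_smul_right, hrq, mul_zero, zero_smul, add_zero] at h1
  rw [orth' r v hr hv] at h1
  have hz' : (starRingEnd ℂ) z ≠ 0 := (map_ne_zero _).mpr hz
  have h2 : Complex.I * hf η q q * (starRingEnd ℂ) z * hf η v v * w * hf η r r = 0 := by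
    linear_combination -h1
  have h3 : Complex.I * hf η q q * (starRingEnd ℂ) z * hf η v v * w * hf η r r ≠ 0 :=
    mul_ne_zero (mul_ne_zero (mul_ne_zero (mul_ne_zero (mul_ne_zero Complex.I_ne_zero hqq) hz')
      hvv) hw) hrr
  exact h3 h2

end contra

end linalg

/-! ### Immersed hypersurfaces -/

section hyper

open scoped Matrix.Norms.Operator


section perp

variable {V : Type*} [AddCommGroup V] [Module ℝ V] [FiniteDimensional ℝ V]
  {B : V →ₗ[ℝ] V →ₗ[ℝ] ℝ}

lemma sup_eq {T S : Submodule ℝ V} (hST : S ≤ T)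
    (hdim : Module.finrank ℝ T = Module.finrank ℝ S + 1) {N : V} (hN : N ∈ T) (hNN : B N N = 1)
    (hNS : ∀ X ∈ S, B X N = 0) : S ⊔ Submodule.span ℝ {N} = T := by
  apply Submodule.eq_of_le_of_finrank_le
  · refine sup_le hST ?_
    rw [Submodule.span_singleton_le_iff_mem]
    exact hN
  · rw [hdim]
    refine Nat.succ_le_of_lt (Submodule.finrank_lt_finrank_of_lt ?_)
    rw [left_lt_sup, Submodule.span_singleton_le_iff_mem]
    intro h
    have := hNS N h
    rw [hNN] at this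
    exact one_ne_zero this

lemma perp_eq (hB : ∀ x y, B x y = B y x) {T S : Submodule ℝ V}
    (hpos : ∀ X ∈ T, X ≠ 0 → 0 < B X X) (hST : S ≤ T)
    (hdim : Module.finrank ℝ T = Module.finrank ℝ S + 1) {N : V} (hN : N ∈ T) (hNN : B N N = 1)
    (hNS : ∀ X ∈ S, B X N = 0) {W : V} (hW : W ∈ T) (hWS : ∀ X ∈ S, B W X = 0) :
    W = B W N • N := by
  rw [← sup_eq hST hdim hN hNN hNS, Submodule.mem_sup] at hW
  obtain ⟨x, hx, y, hy, hxy⟩ := hW
  obtain ⟨t, ht⟩ := Submodule.mem_span_singleton.mp hy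
  have h1 : B W x = B x x := by
    rw [← hxy, ← ht, map_add, LinearMap.add_apply, map_smul, LinearMap.smul_apply, hB N x, hNS x hx]
    simp
  have hx0 : x = 0 := by
    by_contra hx0
    have := hpos x (hST hx) hx0
    rw [← h1, hWS x hx] at this
    exact lt_irrefl _ this
  have h2 : B W N = t := by
    rw [← hxy, ← ht, hx0, zero_add, map_smul, LinearMap.smul_apply, hNN, smul_eq_mul, mul_one]
  rw [h2, ht, ← hxy, hx0, zero_add]

lemma mem_of_perp {T S : Submodule ℝ V} (hST : S ≤ T)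
    (hdim : Module.finrank ℝ T = Module.finrank ℝ S + 1) {N : V} (hN : N ∈ T) (hNN : B N N = 1)
    (hNS : ∀ X ∈ S, B X N = 0) {W : V} (hW : W ∈ T) (hWN : B W N = 0) : W ∈ S := by
  rw [← sup_eq hST hdim hN hNN hNS, Submodule.mem_sup] at hW
  obtain ⟨x, hx, y, hy, hxy⟩ := hW
  obtain ⟨t, ht⟩ := Submodule.mem_span_singleton.mp hy
  have h1 : t = 0 := by
    rw [← hxy, ← ht, map_add, LinearMap.add_apply, map_smul, LinearMap.smul_apply, hNS x hx, hNN, smul_eq_mul,
      mul_one, zero_add] at hWN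
    exact hWN
  rw [← hxy, ← ht, h1, zero_smul, add_zero]
  exact hx

lemma exists_normal (hB : ∀ x y, B x y = B y x) {T S : Submodule ℝ V}
    (hpos : ∀ X ∈ T, X ≠ 0 → 0 < B X X)
    (hdim : Module.finrank ℝ S < Module.finrank ℝ T) :
    ∃ N ∈ T, B N N = 1 ∧ ∀ X ∈ S, B X N = 0 := by
  let φ : T →ₗ[ℝ] (S →ₗ[ℝ] ℝ) :=
    { toFun := fun W => (B (W : V)) ∘ₗ S.subtype
      map_add' := fun x y => by
        apply LinearMap.ext
        intro z
        simp
      map_smul' := fun c x => by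
        apply LinearMap.ext
        intro z
        simp }
  have h1 : Module.finrank ℝ (S →ₗ[ℝ] ℝ) < Module.finrank ℝ T := by
    rw [Module.finrank_linearMap, Module.finrank_self, mul_one]
    exact hdim
  obtain ⟨W, hW, hW0⟩ := (Submodule.ne_bot_iff _).mp (LinearMap.ker_ne_bot_of_finrank_lt (f := φ) h1)
  have hW0' : (W : V) ≠ 0 := fun h => hW0 (Subtype.ext h)
  have hp := hpos W W.2 hW0'
  obtain ⟨c, hc⟩ : ∃ c : ℝ, c = (Real.sqrt (B (W : V) (W : V)))⁻¹ := ⟨_, rfl⟩
  refine ⟨c • (W : V), T.smul_mem _ W.2, ?_, ?_⟩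
  · rw [map_smul, map_smul, LinearMap.smul_apply, smul_eq_mul, smul_eq_mul, hc, ← mul_assoc, ← mul_inv,
      Real.mul_self_sqrt hp.le, inv_mul_cancel₀ hp.ne']
  · intro X hX
    have : φ W ⟨X, hX⟩ = 0 := by
      rw [LinearMap.mem_ker.mp hW]
      rfl
    change B (W : V) X = 0 at this
    rw [map_smul, hB, this, smul_zero]

end perp

section deriv

variable {n : ℕ}

section abstract

variable {V V' : Type*} [NormedAddCommGroup V] [NormedSpace ℝ V] [FiniteDimensional ℝ V]
  [NormedAddCommGroup V'] [NormedSpace ℝ V']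

lemma fderiv_L (L : V →ₗ[ℝ] V') {f : Coord n → V} {u : Coord n} (hf : DifferentiableAt ℝ f u)
    (h : ∀ᶠ v in 𝓝 u, L (f v) = 0) (x : Coord n) : L (fderiv ℝ f u x) = 0 := by
  have h1 : HasFDerivAt (fun v => L.toContinuousLinearMap (f v))
      (L.toContinuousLinearMap.comp (fderiv ℝ f u)) u :=
    L.toContinuousLinearMap.hasFDerivAt.comp u hf.hasFDerivAt
  have h2 : HasFDerivAt (fun v => L.toContinuousLinearMap (f v)) (0 : Coord n →L[ℝ] V') u := by
    refine (hasFDerivAt_const (0 : V') u).congr_of_eventuallyEq ?_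
    filter_upwards [h] with v hv using hv
  have h3 := h1.unique h2
  have := congrArg (fun M : Coord n →L[ℝ] V' => M x) h3
  simpa using this

end abstract

section ring

variable {V : Type*} [NormedRing V] [NormedAlgebra ℝ V]

lemma fderiv_mul_apply {g h : Coord n → V} {u : Coord n} (hg : DifferentiableAt ℝ g u)
    (hh : DifferentiableAt ℝ h u) (x : Coord n) :
    fderiv ℝ (fun v => g v * h v) u x = fderiv ℝ g u x * h u + g u * fderiv ℝ h u x := by
  have : HasFDerivAt (fun v => g v * h v) _ u := hg.hasFDerivAt.mul' hh.hasFDerivAt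
  rw [this.fderiv]
  simp [add_comm]

variable {f : Coord n → V} {u : Coord n}

lemma fderiv_idem (hf : DifferentiableAt ℝ f u) (h1 : ∀ᶠ v in 𝓝 u, f v * f v = f v)
    (x : Coord n) : f u * fderiv ℝ f u x + fderiv ℝ f u x * f u = fderiv ℝ f u x := by
  have h3 : fderiv ℝ (fun v => f v * f v) u = fderiv ℝ f u :=
    Filter.EventuallyEq.fderiv_eq h1
  have h4 := congrArg (fun M : Coord n →L[ℝ] V => M x) h3
  rw [fderiv_mul_apply hf hf] at h4
  rw [add_comm]
  exact h4

lemma D2_idem (hf : ContDiffAt ℝ 2 f u) (h1 : ∀ᶠ v in 𝓝 u, f v * f v = f v) (i j : Fin n) :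
    f u * D2 f i j u + D2 f i j u * f u + (D1 f i u * D1 f j u + D1 f j u * D1 f i u) =
      D2 f i j u := by
  have hev : ∀ᶠ v in 𝓝 u, ContDiffAt ℝ 2 f v := hf.eventually (by simp)
  have hd : ∀ᶠ v in 𝓝 u, f v * D1 f j v + D1 f j v * f v = D1 f j v := by
    filter_upwards [hev, h1.eventually_nhds] with v hv h3
    exact fderiv_idem (hv.differentiableAt (by simp)) h3 _
  have hD1 : DifferentiableAt ℝ (D1 f j) u :=
    (contDiffAt_D1 (m := 1) (k := 2) (by exact_mod_cast hf) (by norm_num) j).differentiableAt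
      (by simp)
  have hf' : DifferentiableAt ℝ f u := hf.differentiableAt (by simp)
  have h3 : fderiv ℝ (fun v => f v * D1 f j v + D1 f j v * f v) u = fderiv ℝ (D1 f j) u :=
    Filter.EventuallyEq.fderiv_eq hd
  have h4 := congrArg (fun M : Coord n →L[ℝ] V => M (cv i)) h3
  rw [fderiv_fun_add (hf'.fun_mul hD1) (hD1.fun_mul hf')] at h4
  rw [add_apply, fderiv_mul_apply hf' hD1, fderiv_mul_apply hD1 hf'] at h4
  change D1 f i u * D1 f j u + f u * D2 f i j u +
    (D2 f i j u * f u + D1 f j u * D1 f i u) = D2 f i j u at h4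
  calc f u * D2 f i j u + D2 f i j u * f u + (D1 f i u * D1 f j u + D1 f j u * D1 f i u)
      = D1 f i u * D1 f j u + f u * D2 f i j u + (D2 f i j u * f u + D1 f j u * D1 f i u) := by
        abel
    _ = D2 f i j u := h4

end ring

variable {ι : Type*} [Fintype ι] [DecidableEq ι]

/-- `X ↦ Xᴴ η - η X` -/
def skewL (η : Matrix ι ι ℂ) : Matrix ι ι ℂ →ₗ[ℝ] Matrix ι ι ℂ :=
    { toFun := fun X => Xᴴ * η - η * X
      map_add' := fun X Y => by
        rw [Matrix.conjTranspose_add, add_mul, mul_add]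
        abel
      map_smul' := fun c X => by
        rw [Matrix.conjTranspose_smul, star_trivial, Matrix.smul_mul, Matrix.mul_smul, smul_sub]
        rfl }

variable {η : Matrix ι ι ℂ} {f : Coord n → Matrix ι ι ℂ} {u : Coord n}

lemma fderiv_mem (hf : DifferentiableAt ℝ f u)
    (h1 : ∀ᶠ v in 𝓝 u, f v * f v = f v) (h2 : ∀ᶠ v in 𝓝 u, (f v)ᴴ * η = η * f v) (x : Coord n) :
    fderiv ℝ f u x ∈ tgt η (f u) := by
  rw [mem_tangent]
  constructor
  · have : skewL η (fderiv ℝ f u x) = 0 := fderiv_L (skewL η) hf (by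
      filter_upwards [h2] with v hv
      exact sub_eq_zero.mpr hv) x
    exact sub_eq_zero.mp this
  · exact fderiv_idem hf h1 x

lemma D2_skew (hf : ContDiffAt ℝ 2 f u)
    (h1 : ∀ᶠ v in 𝓝 u, f v * f v = f v) (h2 : ∀ᶠ v in 𝓝 u, (f v)ᴴ * η = η * f v)
    (i j : Fin n) :
    (D2 f i j u)ᴴ * η = η * D2 f i j u := by
  have hev : ∀ᶠ v in 𝓝 u, ContDiffAt ℝ 2 f v := hf.eventually (by simp)
  have hd : ∀ᶠ v in 𝓝 u, D1 f j v ∈ tgt η (f v) := by
    filter_upwards [hev, h1.eventually_nhds, h2.eventually_nhds] with v hv h3 h4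
    exact fderiv_mem (hv.differentiableAt (by simp)) h3 h4 _
  have hD1 : DifferentiableAt ℝ (D1 f j) u :=
    (contDiffAt_D1 (m := 1) (k := 2) (by exact_mod_cast hf) (by norm_num) j).differentiableAt
      (by simp)
  have : skewL η (fderiv ℝ (D1 f j) u (cv i)) = 0 := fderiv_L (skewL η) hD1 (by
      filter_upwards [hd] with v hv
      exact sub_eq_zero.mpr (mem_tangent.mp hv).1) (cv i)
  exact sub_eq_zero.mp this

end deriv

section ring2

variable {n : ℕ} {V : Type*} [NormedRing V] [NormedAlgebra ℝ V] [FiniteDimensional ℝ V]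

/-- bilinear form from a trace -/
noncomputable def BT (τ : V →ₗ[ℝ] ℝ) : V →L[ℝ] V →L[ℝ] ℝ :=
  (ContinuousLinearMap.compL ℝ V V ℝ τ.toContinuousLinearMap).comp (ContinuousLinearMap.mul ℝ V)

lemma BT_apply (τ : V →ₗ[ℝ] ℝ) (x y : V) : BT τ x y = τ (x * y) := rfl

variable {τ : V →ₗ[ℝ] ℝ} (hτ : ∀ x y, τ (x * y) = τ (y * x)) {f : Coord n → V} {u : Coord n}
  {G : Coord n → Matrix (Fin n) (Fin n) ℝ}
  (hG : G = fun v => Matrix.of fun i j => τ (D1 f i v * D1 f j v))
include hτ hG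

lemma gauss_ring (hf : ContDiffAt ℝ 3 f u) (hdet : IsUnit (G u).det) (i j k q : Fin n) :
    ∑ l, riemann G l k i j u * G u l q =
      τ ((D2 f j k u - ∑ l, christoffel G l j k u • D1 f l u) * D2 f i q u) -
      τ ((D2 f i k u - ∑ l, christoffel G l i k u • D1 f l u) * D2 f j q u) := by
  have h : G = gramB (BT τ) f := hG
  subst h
  exact gauss (B := BT τ) hτ hf hdet i j k q

lemma sum_christoffel_ring (hf : ContDiffAt ℝ 2 f u) (hdet : IsUnit (G u).det)
    (i j q : Fin n) :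
    ∑ k, christoffel G k i j u * G u k q = τ (D2 f i j u * D1 f q u) := by
  have h : G = gramB (BT τ) f := hG
  subst h
  exact sum_christoffel (B := BT τ) hτ hf hdet i j q

end ring2

section alg

variable {ι : Type*} [Fintype ι] [DecidableEq ι] {η P : Matrix ι ι ℂ}

/-- real trace functional -/
noncomputable def trL (c : ℝ) : Matrix ι ι ℂ →ₗ[ℝ] ℝ where
  toFun X := c * X.trace.re
  map_add' X Y := by
    rw [Matrix.trace_add, Complex.add_re, mul_add]
  map_smul' a X := by
    rw [Matrix.trace_smul, Complex.smul_re, smul_eq_mul, smul_eq_mul, RingHom.id_apply]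
    ring

omit [DecidableEq ι] in
lemma trL_apply (c : ℝ) (X : Matrix ι ι ℂ) : trL c X = c * X.trace.re := rfl

omit [DecidableEq ι] in
lemma trL_comm (c : ℝ) (X Y : Matrix ι ι ℂ) : trL c (X * Y) = trL c (Y * X) := by
  rw [trL_apply, trL_apply, Matrix.trace_mul_comm]

/-- trace form -/
noncomputable def trB (c : ℝ) : Matrix ι ι ℂ →ₗ[ℝ] Matrix ι ι ℂ →ₗ[ℝ] ℝ :=
  LinearMap.mk₂ ℝ (fun X Y => trL c (X * Y))
    (fun X X' Y => by rw [add_mul, map_add])
    (fun a X Y => by rw [Matrix.smul_mul, map_smul])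
    (fun X Y Y' => by rw [mul_add, map_add])
    (fun a X Y => by rw [Matrix.mul_smul, map_smul])

lemma trB_apply (c : ℝ) (X Y : Matrix ι ι ℂ) : trB c X Y = trL c (X * Y) := rfl

lemma trB_symm (c : ℝ) (X Y : Matrix ι ι ℂ) : trB c X Y = trB c Y X := by
  rw [trB_apply, trB_apply, trL_comm]

omit [DecidableEq ι] in
lemma XYP_comm {X Y : Matrix ι ι ℂ} (hX : P * X + X * P = X) (hY : P * Y + Y * P = Y) :
    P * (X * Y + Y * X) = (X * Y + Y * X) * P := by
  rw [mul_add, add_mul, XYP hX hY, XYP hY hX]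

lemma sff_orth (hP : P * P = P) {X Y Z : Matrix ι ι ℂ} (hX : P * X + X * P = X)
    (hY : P * Y + Y * P = Y) (hZ : P * Z + Z * P = Z) : (sff P X Y * Z).trace = 0 := by
  obtain ⟨C, hC⟩ : ∃ C, C = sff P X Y := ⟨_, rfl⟩
  have hPC : P * C = C * P := by
    rw [hC]
    unfold sff
    rw [← mul_assoc, XYP_comm hX hY, mul_assoc, mul_assoc]
    congr 1
    noncomm_ring
  rw [← hC]
  have h0 : P * Z * P = 0 := tangent_PXP hP hZ
  have h1 : (C * Z).trace = (C * (P * Z)).trace + (C * (Z * P)).trace := by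
    rw [← Matrix.trace_add, ← mul_add, hZ]
  have h2 : (C * (P * Z)).trace = 0 := by
    have : (C * (P * Z)).trace = (C * (P * Z * P)).trace := by
      calc (C * (P * Z)).trace = (P * (P * C) * Z).trace := by
            rw [← mul_assoc C, ← hPC, ← mul_assoc P P, hP]
        _ = (P * (C * P) * Z).trace := by rw [hPC]
        _ = (P * (C * (P * Z))).trace := by simp only [mul_assoc]
        _ = ((C * (P * Z)) * P).trace := Matrix.trace_mul_comm _ _
        _ = (C * (P * Z * P)).trace := by simp only [mul_assoc]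
    rw [this, h0]
    simp
  have h3 : (C * (Z * P)).trace = (C * (P * Z)).trace := by
    calc (C * (Z * P)).trace = ((C * Z) * P).trace := by rw [mul_assoc]
      _ = (P * (C * Z)).trace := Matrix.trace_mul_comm _ _
      _ = (C * (P * Z)).trace := by rw [← mul_assoc, hPC, mul_assoc]
  rw [h1, h3, h2, add_zero]

lemma sub_sff_mem (hP : P * P = P) (hPη : Pᴴ * η = η * P) {X Y D : Matrix ι ι ℂ}
    (hX : X ∈ tgt η P) (hY : Y ∈ tgt η P) (h1 : Dᴴ * η = η * D)
    (h2 : P * D + D * P + (X * Y + Y * X) = D) : D - sff P X Y ∈ tgt η P := by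
  obtain ⟨hX1, hX2⟩ := mem_tangent.mp hX
  obtain ⟨hY1, hY2⟩ := mem_tangent.mp hY
  have hS := XYP_comm hX2 hY2
  obtain ⟨S, hSd⟩ : ∃ S, S = X * Y + Y * X := ⟨_, rfl⟩
  have hSη : Sᴴ * η = η * S := by
    rw [hSd, Matrix.conjTranspose_add, Matrix.conjTranspose_mul, Matrix.conjTranspose_mul,
      add_mul, mul_assoc, mul_assoc, hX1, hY1, ← mul_assoc, ← mul_assoc, hX1, hY1, mul_assoc,
      mul_assoc, mul_add, add_comm]
  rw [mem_tangent]
  unfold sff
  rw [← hSd] at hS h2 ⊢
  constructor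
  · have h3 : (S * (1 - 2 * P))ᴴ * η = η * (S * (1 - 2 * P)) := by
      rw [← comm_proj hS, Matrix.conjTranspose_mul, mul_assoc]
      have : (1 - 2 * P)ᴴ * η = η * (1 - 2 * P) := by
        rw [Matrix.conjTranspose_sub, Matrix.conjTranspose_mul, Matrix.conjTranspose_one, sub_mul,
          one_mul, mul_sub, mul_one]
        congr 1
        have h4 : (2 : Matrix ι ι ℂ)ᴴ = 2 := by
          rw [Matrix.conjTranspose_ofNat]
        rw [h4, mul_two, add_mul, hPη, two_mul, mul_add]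
      rw [this, ← mul_assoc, hSη, mul_assoc, comm_proj hS]
    rw [Matrix.conjTranspose_sub, sub_mul, h1, h3, ← mul_sub]
  · have h5 : P * (S * (1 - 2 * P)) = - (P * S) := by
      have : P * (S * (1 - 2 * P)) = P * S - 2 * (P * S * P) := by noncomm_ring
      rw [this, hS, mul_assoc, hP]
      noncomm_ring
    have h6 : S * (1 - 2 * P) * P = - (P * S) := by
      rw [mul_assoc]
      have : (1 - 2 * P) * P = - P := by
        have : (1 - 2 * P) * P = P - 2 * (P * P) := by noncomm_ring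
        rw [this, hP]
        noncomm_ring
      rw [this, mul_neg, hS]
    rw [mul_sub, sub_mul, h5, h6]
    have h7 : P * D + D * P = D - S := by rw [eq_sub_iff_add_eq]; exact h2
    have h8 : S * (1 - 2 * P) = S - (P * S + P * S) := by
      have : S * (1 - 2 * P) = S - (S * P + S * P) := by noncomm_ring
      rw [this, hS]
    rw [h8]
    calc P * D - -(P * S) + (D * P - -(P * S)) = (P * D + D * P) + (P * S + P * S) := by abel
      _ = D - S + (P * S + P * S) := by rw [h7]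
      _ = D - (S - (P * S + P * S)) := by abel

end alg

section local_thm

variable {n : ℕ}

lemma eq_sum_cv (x : Coord n) : x = ∑ i, x i • cv i := by
  ext j
  simp [cv, Pi.single_apply]

lemma fderiv_eq_sum {V : Type*} [NormedAddCommGroup V] [NormedSpace ℝ V] (f : Coord n → V)
    (u x : Coord n) : fderiv ℝ f u x = ∑ i, x i • D1 f i u := by
  conv_lhs => rw [eq_sum_cv x]
  rw [map_sum]
  refine Finset.sum_congr rfl fun i _ => ?_
  rw [map_smul]
  rfl

lemma bracket_expand {A : Type*} [Ring A] [Algebra ℝ A] (τ : A →ₗ[ℝ] ℝ) (X : Fin n → A)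
    (x y z : Fin n → ℝ) (W : A) :
    τ ((((∑ i, x i • X i) * (∑ j, y j • X j) - (∑ j, y j • X j) * (∑ i, x i • X i)) *
      (∑ k, z k • X k) - (∑ k, z k • X k) *
      ((∑ i, x i • X i) * (∑ j, y j • X j) - (∑ j, y j • X j) * (∑ i, x i • X i))) * W) =
    ∑ i, ∑ j, ∑ k, x i * y j * z k *
      τ (((X i * X j - X j * X i) * X k - X k * (X i * X j - X j * X i)) * W) := by
  have h1 : (∑ i, x i • X i) * (∑ j, y j • X j) - (∑ j, y j • X j) * (∑ i, x i • X i) =
      ∑ i, ∑ j, (x i * y j) • (X i * X j - X j * X i) := by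
    rw [Finset.sum_mul_sum, Finset.sum_mul_sum, Finset.sum_comm (f := fun j i =>
      y j • X j * x i • X i), ← Finset.sum_sub_distrib]
    refine Finset.sum_congr rfl fun i _ => ?_
    rw [← Finset.sum_sub_distrib]
    refine Finset.sum_congr rfl fun j _ => ?_
    rw [smul_mul_smul_comm, smul_mul_smul_comm, smul_sub, mul_comm (y j)]
  rw [h1, Finset.sum_mul, Finset.mul_sum, ← Finset.sum_sub_distrib, Finset.sum_mul, map_sum]
  refine Finset.sum_congr rfl fun i _ => ?_
  rw [Finset.sum_mul, Finset.mul_sum, ← Finset.sum_sub_distrib, Finset.sum_mul, map_sum]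
  refine Finset.sum_congr rfl fun j _ => ?_
  rw [Finset.sum_mul, Finset.mul_sum, ← Finset.sum_sub_distrib, Finset.sum_mul, map_sum]
  refine Finset.sum_congr rfl fun k _ => ?_
  rw [smul_mul_smul_comm, smul_mul_smul_comm, mul_comm (z k), ← smul_sub, smul_mul_assoc,
    map_smul, smul_eq_mul]

variable {ι : Type*} [Fintype ι] [DecidableEq ι] {η : Matrix ι ι ℂ}

lemma trB_sum_left (c : ℝ) (x : Fin n → ℝ) (X : Fin n → Matrix ι ι ℂ) (W : Matrix ι ι ℂ) :
    trB c (∑ i, x i • X i) W = ∑ i, x i * trB c (X i) W := by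
  rw [map_sum, LinearMap.sum_apply]
  refine Finset.sum_congr rfl fun i _ => ?_
  rw [map_smul, LinearMap.smul_apply, smul_eq_mul]

lemma trB_sum_right (c : ℝ) (x : Fin n → ℝ) (X : Fin n → Matrix ι ι ℂ) (W : Matrix ι ι ℂ) :
    trB c W (∑ i, x i • X i) = ∑ i, x i * trB c W (X i) := by
  rw [map_sum]
  refine Finset.sum_congr rfl fun i _ => ?_
  rw [map_smul, smul_eq_mul]

omit [DecidableEq ι] in
lemma fderiv_eq_sum_mat (f : Coord n → Matrix ι ι ℂ)
    (u x : Coord n) : fderiv ℝ f u x = ∑ i, x i • D1 f i u := fderiv_eq_sum f u x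

omit [DecidableEq ι] in
lemma exists_z {E : Type*} [AddCommGroup E] [Module ℝ E] (D : E →ₗ[ℝ] Matrix ι ι ℂ)
    (l : E →ₗ[ℝ] ℝ) (v q : ι → ℂ) (h : ∀ z : ℂ, ∃ x, D x = tv η v (z • q)) :
    ∃ z : ℂ, z ≠ 0 ∧ ∃ x, D x = tv η v (z • q) ∧ l x = 0 := by
  obtain ⟨x1, hx1⟩ := h 1
  obtain ⟨x2, hx2⟩ := h Complex.I
  by_cases h0 : l x1 = 0
  · exact ⟨1, one_ne_zero, x1, hx1, h0⟩
  · refine ⟨(l x2 : ℂ) + ((-(l x1) : ℝ) : ℂ) * Complex.I, ?_, l x2 • x1 + (-(l x1)) • x2, ?_, ?_⟩
    · intro h1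
      have := congrArg Complex.im h1
      simp at this
      exact h0 this
    · rw [map_add, map_smul, map_smul, hx1, hx2, ← tv_smul, ← tv_smul, ← tv_add]
      congr 1
      rw [one_smul, smul_smul, add_smul]
    · rw [map_add, map_smul, map_smul, smul_eq_mul, smul_eq_mul]
      ring

section ctx

variable {m : ℕ} {ε c : ℝ} {f : Coord n → Matrix ι ι ℂ} {u : Coord n}
  {G : Coord n → Matrix (Fin n) (Fin n) ℝ}

lemma trB_pos (hε : ε ^ 2 = 1) (hcε : 0 < c * ε) {P : Matrix ι ι ℂ}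
    (hH : (η * P + (ε : ℂ) • (η * (1 - P))).PosDef)
    (X : Matrix ι ι ℂ) (hX : X ∈ tgt η P) (hX0 : X ≠ 0) : 0 < trB c X X := by
  have h1 := mul_pos hcε (trace_pos hε hH hX hX0)
  have h2 : c * ε * (ε * (X * X).trace.re) = trB c X X := by
    rw [trB_apply, trL_apply]
    linear_combination c * (X * X).trace.re * hε
  rwa [h2] at h1

lemma det_isUnit (hG : G = fun v => Matrix.of fun i j => trL c (D1 f i v * D1 f j v))
    (hpos : ∀ X ∈ tgt η (f u), X ≠ 0 → 0 < trB c X X)
    (hmem : ∀ x, fderiv ℝ f u x ∈ tgt η (f u))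
    (hinj : Function.Injective (fderiv ℝ f u)) : IsUnit (G u).det := by
  rw [isUnit_iff_ne_zero]
  intro h0
  obtain ⟨x, hx0, hx⟩ := Matrix.exists_mulVec_eq_zero_iff.mpr h0
  obtain ⟨x', hx'⟩ : ∃ x' : Coord n, ∀ i, x' i = x i := ⟨x, fun i => rfl⟩
  have hX : fderiv ℝ f u x' ≠ 0 := by
    intro h1
    apply hx0
    have h2 : x' = 0 := hinj (by rw [h1, map_zero])
    rw [← h2]
    exact funext fun i => (hx' i).symm
  have h3 := hpos _ (hmem x') hX
  have h4 : trB c (fderiv ℝ f u x') (fderiv ℝ f u x') = x ⬝ᵥ (G u *ᵥ x) := by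
    rw [fderiv_eq_sum_mat, trB_sum_left]
    simp only [dotProduct, Matrix.mulVec]
    refine Finset.sum_congr rfl fun i _ => ?_
    rw [trB_sum_right, hx']
    congr 1
    refine Finset.sum_congr rfl fun j _ => ?_
    rw [hx', mul_comm, hG]
    rfl
  rw [h4, hx, dotProduct_zero] at h3
  exact lt_irrefl _ h3

variable (hG : G = fun v => Matrix.of fun i j => trL c (D1 f i v * D1 f j v))
include hG

lemma decomp (hf : ContDiffAt ℝ 3 f u)
    (h1 : ∀ᶠ v in 𝓝 u, f v * f v = f v) (h2 : ∀ᶠ v in 𝓝 u, (f v)ᴴ * η = η * f v)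
    (hpos : ∀ X ∈ tgt η (f u), X ≠ 0 → 0 < trB c X X)
    (hdet : IsUnit (G u).det) {S : Submodule ℝ (Matrix ι ι ℂ)}
    (hS : ∀ X, X ∈ S ↔ ∃ x, fderiv ℝ f u x = X)
    (hST : S ≤ tgt η (f u))
    (hdim : Module.finrank ℝ (tgt η (f u)) = Module.finrank ℝ S + 1)
    {N : Matrix ι ι ℂ} (hN : N ∈ tgt η (f u)) (hNN : trB c N N = 1)
    (hNS : ∀ X ∈ S, trB c X N = 0) (i j : Fin n) :
    D2 f i j u - ∑ l, christoffel G l i j u • D1 f l u =
      sff (f u) (D1 f i u) (D1 f j u) + trB c (D2 f i j u) N • N := by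
  have hf2 : ContDiffAt ℝ 2 f u := hf.of_le (by norm_num)
  have hP : f u * f u = f u := h1.self_of_nhds
  have hPη : (f u)ᴴ * η = η * f u := h2.self_of_nhds
  have hmem : ∀ k, D1 f k u ∈ tgt η (f u) := fun k =>
    fderiv_mem (hf2.differentiableAt (by simp)) h1 h2 (cv k)
  have hmemS : ∀ k, D1 f k u ∈ S := fun k => (hS _).mpr ⟨cv k, rfl⟩
  have hT : D2 f i j u - sff (f u) (D1 f i u) (D1 f j u) ∈ tgt η (f u) :=
    sub_sff_mem hP hPη (hmem i) (hmem j) (D2_skew hf2 h1 h2 i j) (D2_idem hf2 h1 i j)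
  have hΓ : ∑ l, christoffel G l i j u • D1 f l u ∈ S :=
    Submodule.sum_mem _ fun l _ => S.smul_mem _ (hmemS l)
  have hsff : ∀ X ∈ tgt η (f u), trB c (sff (f u) (D1 f i u) (D1 f j u)) X = 0 := by
    intro X hX
    rw [trB_apply, trL_apply, sff_orth hP (hmem i).2 (hmem j).2 hX.2]
    simp
  obtain ⟨W, hW⟩ : ∃ W, W = D2 f i j u - sff (f u) (D1 f i u) (D1 f j u) -
    ∑ l, christoffel G l i j u • D1 f l u := ⟨_, rfl⟩
  have hWT : W ∈ tgt η (f u) := by
    rw [hW]
    exact Submodule.sub_mem _ hT (hST hΓ)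
  have hWN : trB c W N = trB c (D2 f i j u) N := by
    rw [hW, map_sub, map_sub, LinearMap.sub_apply, LinearMap.sub_apply, hsff N hN, hNS _ hΓ]
    ring
  have hWq : ∀ q, trB c W (D1 f q u) = 0 := by
    intro q
    rw [hW, map_sub, map_sub, LinearMap.sub_apply, LinearMap.sub_apply, hsff _ (hmem q)]
    have e := sum_christoffel_ring (τ := trL c) (trL_comm c) hG hf2 hdet i j q
    have e2 : trB c (∑ l, christoffel G l i j u • D1 f l u) (D1 f q u) =
        ∑ k, christoffel G k i j u * G u k q := by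
      rw [map_sum, LinearMap.sum_apply]
      refine Finset.sum_congr rfl fun k _ => ?_
      rw [map_smul, LinearMap.smul_apply, smul_eq_mul, hG]
      rfl
    rw [e2, e, trB_apply]
    ring
  have hWS : ∀ X ∈ S, trB c W X = 0 := by
    intro X hX
    obtain ⟨x, hx⟩ := (hS X).mp hX
    rw [← hx, fderiv_eq_sum_mat, map_sum]
    refine Finset.sum_eq_zero fun k _ => ?_
    rw [map_smul, hWq, smul_zero]
  have := perp_eq (trB_symm c) hpos hST hdim hN hNN hNS hWT hWS
  rw [hWN] at this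
  rw [← this, hW]
  abel

lemma gauss_pt (hf : ContDiffAt ℝ 3 f u)
    (h1 : ∀ᶠ v in 𝓝 u, f v * f v = f v) (h2 : ∀ᶠ v in 𝓝 u, (f v)ᴴ * η = η * f v)
    (hpos : ∀ X ∈ tgt η (f u), X ≠ 0 → 0 < trB c X X)
    (hdet : IsUnit (G u).det) {S : Submodule ℝ (Matrix ι ι ℂ)}
    (hS : ∀ X, X ∈ S ↔ ∃ x, fderiv ℝ f u x = X)
    (hST : S ≤ tgt η (f u))
    (hdim : Module.finrank ℝ (tgt η (f u)) = Module.finrank ℝ S + 1)
    {N : Matrix ι ι ℂ} (hN : N ∈ tgt η (f u)) (hNN : trB c N N = 1)
    (hNS : ∀ X ∈ S, trB c X N = 0) (i j k q : Fin n) :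
    ∑ l, riemann G l k i j u * G u l q =
      trL c (((D1 f i u * D1 f j u - D1 f j u * D1 f i u) * D1 f k u -
        D1 f k u * (D1 f i u * D1 f j u - D1 f j u * D1 f i u)) * D1 f q u) +
      trB c (D2 f j k u) N * trB c (D2 f i q u) N -
      trB c (D2 f i k u) N * trB c (D2 f j q u) N := by
  have hf2 : ContDiffAt ℝ 2 f u := hf.of_le (by norm_num)
  have hP : f u * f u = f u := h1.self_of_nhds
  have hmem : ∀ k, D1 f k u ∈ tgt η (f u) := fun k =>
    fderiv_mem (hf2.differentiableAt (by simp)) h1 h2 (cv k)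
  have hmemS : ∀ k, D1 f k u ∈ S := fun k => (hS _).mpr ⟨cv k, rfl⟩
  have hd := decomp hG hf h1 h2 hpos hdet hS hST hdim hN hNN hNS
  have hsff : ∀ i j, ∀ X ∈ tgt η (f u), trB c (sff (f u) (D1 f i u) (D1 f j u)) X = 0 := by
    intro i j X hX
    rw [trB_apply, trL_apply, sff_orth hP (hmem i).2 (hmem j).2 hX.2]
    simp
  have key : ∀ a b c' d : Fin n,
      trL c ((D2 f a b u - ∑ l, christoffel G l a b u • D1 f l u) * D2 f c' d u) =
      trL c (sff (f u) (D1 f a u) (D1 f b u) * sff (f u) (D1 f c' u) (D1 f d u)) +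
        trB c (D2 f a b u) N * trB c (D2 f c' d u) N := by
    intro a b c' d
    have e1 : D2 f c' d u = (sff (f u) (D1 f c' u) (D1 f d u) + trB c (D2 f c' d u) N • N) +
        ∑ l, christoffel G l c' d u • D1 f l u := by
      rw [← hd c' d]
      abel
    have hΓ : ∑ l, christoffel G l c' d u • D1 f l u ∈ S :=
      Submodule.sum_mem _ fun l _ => S.smul_mem _ (hmemS l)
    rw [← trB_apply, hd a b]
    conv_lhs => rw [e1]
    simp only [map_add, LinearMap.add_apply, map_smul, LinearMap.smul_apply, smul_eq_mul]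
    rw [hsff a b _ (hST hΓ), hsff a b _ hN, trB_symm c N (∑ l, _), hNS _ hΓ,
      trB_symm c N (sff _ _ _), hsff c' d _ hN, hNN, trB_apply c (sff _ _ _) (sff _ _ _)]
    ring
  rw [gauss_ring (τ := trL c) (trL_comm c) hG hf hdet i j k q, key, key]
  have hg := gauss_alg hP (hmem i).2 (hmem j).2 (hmem k).2 (hmem q).2
  rw [trL_apply, trL_apply, trL_apply, ← hg, Complex.sub_re, mul_sub]
  ring

omit hG in
/-- Existence of the unit normal and of the Reeb vector. -/
theorem local_exists (hn : n + 1 = 4 * m) (hc : Fintype.card ι = 2 + m)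
    (hε : ε ^ 2 = 1) (hcε : 0 < c * ε) (hη : ηᴴ = η) (hη2 : η * η = 1)
    (hf : DifferentiableAt ℝ f u)
    (h1 : ∀ᶠ v in 𝓝 u, f v * f v = f v) (h2 : ∀ᶠ v in 𝓝 u, (f v)ᴴ * η = η * f v)
    (hr : (f u).rank = 2) (hH : (η * f u + (ε : ℂ) • (η * (1 - f u))).PosDef)
    (hinj : Function.Injective (fderiv ℝ f u)) :
    ∃ N ∈ tgt η (f u), ∃ ξ : Coord n, trB c N N = 1 ∧ (∀ x, trB c (fderiv ℝ f u x) N = 0) ∧
      fderiv ℝ f u ξ = - cplxG (f u) N := by
  have hP : f u * f u = f u := h1.self_of_nhds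
  have hPη : (f u)ᴴ * η = η * f u := h2.self_of_nhds
  have hmem : ∀ x, fderiv ℝ f u x ∈ tgt η (f u) := fderiv_mem hf h1 h2
  have hpos := trB_pos hε hcε hH
  let D : Coord n →ₗ[ℝ] Matrix ι ι ℂ :=
    { toFun := fun x => fderiv ℝ f u x
      map_add' := fun x y => map_add _ _ _
      map_smul' := fun a x => map_smul _ _ _ }
  have hDinj : Function.Injective D := hinj
  let S : Submodule ℝ (Matrix ι ι ℂ) := LinearMap.range D
  have hS : ∀ X, X ∈ S ↔ ∃ x, fderiv ℝ f u x = X := fun X => Iff.rfl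
  have hST : S ≤ tgt η (f u) := by
    intro X hX
    obtain ⟨x, hx⟩ := (hS X).mp hX
    rw [← hx]
    exact hmem x
  have hdim : Module.finrank ℝ (tgt η (f u)) = Module.finrank ℝ S + 1 := by
    rw [finrank_tangent hη hη2 hP hPη hr hc, ← hn]
    have : Module.finrank ℝ S = n := by
      rw [LinearMap.finrank_range_of_inj hDinj, Module.finrank_fin_fun]
    rw [this]
  obtain ⟨N, hN, hNN, hNS⟩ := exists_normal (trB_symm c) (S := S) hpos (by rw [hdim]; omega)
  have hΞ : - cplxG (f u) N ∈ tgt η (f u) := Submodule.neg_mem _ (cplx_mem hP hPη hN)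
  have hΞN : trB c (- cplxG (f u) N) N = 0 := by
    rw [map_neg, LinearMap.neg_apply, trB_apply, trL_apply]
    unfold cplxG
    rw [Matrix.smul_mul, Matrix.trace_smul, sub_mul, Matrix.trace_sub, mul_assoc,
      Matrix.trace_mul_comm N, sub_self]
    simp
  obtain ⟨ξ, hξ⟩ := (hS _).mp (mem_of_perp hST hdim hN hNN hNS hΞ hΞN)
  exact ⟨N, hN, ξ, hNN, fun x => hNS _ ((hS _).mpr ⟨x, rfl⟩), hξ⟩

/-- Main local theorem. -/
theorem local_main (hn : n + 1 = 4 * m) (hm : 3 ≤ m) (hc : Fintype.card ι = 2 + m)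
    (hε : ε ^ 2 = 1) (hcε : 0 < c * ε) (hη : ηᴴ = η) (hη2 : η * η = 1)
    (hf : ContDiffAt ℝ 3 f u)
    (h1 : ∀ᶠ v in 𝓝 u, f v * f v = f v) (h2 : ∀ᶠ v in 𝓝 u, (f v)ᴴ * η = η * f v)
    (hr : (f u).rank = 2) (hH : (η * f u + (ε : ℂ) • (η * (1 - f u))).PosDef)
    (hinj : Function.Injective (fderiv ℝ f u))
    {N : Matrix ι ι ℂ} (hN : N ∈ tgt η (f u)) (hNN : trB c N N = 1)
    (hNS : ∀ x, trB c (fderiv ℝ f u x) N = 0) {ξ : Coord n}
    (hξ : fderiv ℝ f u ξ = - cplxG (f u) N)
    (hcurv : ∀ x y, trB c (fderiv ℝ f u x) (fderiv ℝ f u ξ) = 0 →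
      trB c (fderiv ℝ f u y) (fderiv ℝ f u ξ) = 0 → curv G u x y ξ = 0) : False := by
  have hf2 : ContDiffAt ℝ 2 f u := hf.of_le (by norm_num)
  have hP : f u * f u = f u := h1.self_of_nhds
  have hPη : (f u)ᴴ * η = η * f u := h2.self_of_nhds
  have hmem : ∀ x, fderiv ℝ f u x ∈ tgt η (f u) :=
    fderiv_mem (hf2.differentiableAt (by simp)) h1 h2
  have hpos := trB_pos hε hcε hH
  have hdet := det_isUnit hG hpos hmem hinj
  let D : Coord n →ₗ[ℝ] Matrix ι ι ℂ :=
    { toFun := fun x => fderiv ℝ f u x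
      map_add' := fun x y => map_add _ _ _
      map_smul' := fun a x => map_smul _ _ _ }
  have hDinj : Function.Injective D := hinj
  let S : Submodule ℝ (Matrix ι ι ℂ) := LinearMap.range D
  have hS : ∀ X, X ∈ S ↔ ∃ x, fderiv ℝ f u x = X := fun X => Iff.rfl
  have hST : S ≤ tgt η (f u) := by
    intro X hX
    obtain ⟨x, hx⟩ := (hS X).mp hX
    rw [← hx]
    exact hmem x
  have hdim : Module.finrank ℝ (tgt η (f u)) = Module.finrank ℝ S + 1 := by
    rw [finrank_tangent hη hη2 hP hPη hr hc, ← hn]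
    have : Module.finrank ℝ S = n := by
      rw [LinearMap.finrank_range_of_inj hDinj, Module.finrank_fin_fun]
    rw [this]
  have hNS' : ∀ X ∈ S, trB c X N = 0 := by
    intro X hX
    obtain ⟨x, hx⟩ := (hS X).mp hX
    rw [← hx]
    exact hNS x
  have hN0 : N ≠ 0 := by
    intro h0
    rw [h0, map_zero] at hNN
    exact zero_ne_one hNN
  have hΞ : - cplxG (f u) N ∈ tgt η (f u) := Submodule.neg_mem _ (cplx_mem hP hPη hN)
  obtain ⟨v, w, q, r, hv1, hv2, hv0, hw1, hwq, hq0, hq, hr1, hr0, hqr⟩ :=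
    exists_data hη2 hP hPη hr hc hm hN hN0
  have hΞv : (- cplxG (f u) N) *ᵥ v = 0 := by
    unfold cplxG
    rw [Matrix.neg_mulVec, Matrix.smul_mulVec, Matrix.sub_mulVec, ← Matrix.mulVec_mulVec,
      ← Matrix.mulVec_mulVec, hv1, hv2]
    simp
  -- the test vectors are tgt to the hypersurface
  have htv : ∀ a : ι → ℂ, f u *ᵥ a = a → ∀ z : ℂ, ∃ x, D x = tv η v (z • a) := by
    intro a ha z
    have hza : f u *ᵥ (z • a) = z • a := by rw [Matrix.mulVec_smul, ha]
    have h3 : tv η v (z • a) ∈ S := by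
      apply mem_of_perp (B := trB c) hST hdim hN hNN hNS' (tv_mem hη hPη hv1 hza)
      rw [trB_apply, trL_apply, trace_tv_zero hN.1 hv2]
      simp
    exact h3
  have htvξ : ∀ a x, D x = tv η v a → trB c (fderiv ℝ f u x) (fderiv ℝ f u ξ) = 0 := by
    intro a x hx
    change trB c (D x) (fderiv ℝ f u ξ) = 0
    rw [hx, hξ, trB_apply, trL_apply, trace_tv_zero hΞ.1 hΞv]
    simp
  let l : Coord n →ₗ[ℝ] ℝ :=
    { toFun := fun x => ∑ i, x i * ∑ k, ξ k * trB c (D2 f i k u) N
      map_add' := fun x y => by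
        simp [add_mul, Finset.sum_add_distrib]
      map_smul' := fun a x => by
        simp [mul_assoc, Finset.mul_sum] }
  obtain ⟨z1, hz1, x, hx, hlx⟩ := exists_z D l v q (htv q hq)
  obtain ⟨z2, hz2, y, hy, hly⟩ := exists_z D l v r (htv r hr1)
  have hc0 := hcurv x y (htvξ _ x hx) (htvξ _ y hy)
  have hDx : ∑ i, x i • D1 f i u = tv η v (z1 • q) := by
    rw [← hx]
    exact (fderiv_eq_sum_mat f u x).symm
  have hDy : ∑ i, y i • D1 f i u = tv η v (z2 • r) := by
    rw [← hy]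
    exact (fderiv_eq_sum_mat f u y).symm
  have hDξ : ∑ i, ξ i • D1 f i u = - cplxG (f u) N := by
    rw [← hξ]
    exact (fderiv_eq_sum_mat f u ξ).symm
  obtain ⟨K, hK⟩ : ∃ K, K = (tv η v (z1 • q) * tv η v (z2 • r) -
    tv η v (z2 • r) * tv η v (z1 • q)) * (- cplxG (f u) N) -
      (- cplxG (f u) N) * (tv η v (z1 • q) * tv η v (z2 • r) -
        tv η v (z2 • r) * tv η v (z1 • q)) := ⟨_, rfl⟩
  have hKT : K ∈ tgt η (f u) := by
    rw [hK]
    obtain ⟨x', hx'⟩ := htv q hq z1
    obtain ⟨y', hy'⟩ := htv r hr1 z2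
    apply bracket_mem
    · rw [← hx']; exact hmem x'
    · rw [← hy']; exact hmem y'
    · exact hΞ
  have hKq : ∀ p, trB c K (D1 f p u) = 0 := by
    intro p
    have e0 : ∑ a, curv G u x y ξ a * G u a p = 0 := by
      rw [hc0]
      simp
    have e1 : ∑ a, curv G u x y ξ a * G u a p =
        ∑ i, ∑ j, ∑ k, x i * y j * ξ k * ∑ a, riemann G a k i j u * G u a p := by
      have e2 : ∀ a, curv G u x y ξ a * G u a p =
          ∑ i, ∑ j, ∑ k, x i * y j * ξ k * (riemann G a k i j u * G u a p) := by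
        intro a
        change (∑ i, ∑ j, ∑ k, x i * y j * ξ k * riemann G a k i j u) * G u a p = _
        rw [Finset.sum_mul]
        refine Finset.sum_congr rfl fun i _ => ?_
        rw [Finset.sum_mul]
        refine Finset.sum_congr rfl fun j _ => ?_
        rw [Finset.sum_mul]
        refine Finset.sum_congr rfl fun k _ => ?_
        ring
      simp_rw [e2]
      rw [Finset.sum_comm]
      refine Finset.sum_congr rfl fun i _ => ?_
      rw [Finset.sum_comm]
      refine Finset.sum_congr rfl fun j _ => ?_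
      rw [Finset.sum_comm]
      refine Finset.sum_congr rfl fun k _ => ?_
      rw [Finset.mul_sum]
    rw [e1] at e0
    have hg := gauss_pt hG hf h1 h2 hpos hdet hS hST hdim hN hNN hNS'
    simp_rw [hg] at e0
    have e3 : ∑ i, ∑ j, ∑ k, x i * y j * ξ k *
        (trL c (((D1 f i u * D1 f j u - D1 f j u * D1 f i u) * D1 f k u -
        D1 f k u * (D1 f i u * D1 f j u - D1 f j u * D1 f i u)) * D1 f p u) +
      trB c (D2 f j k u) N * trB c (D2 f i p u) N -
      trB c (D2 f i k u) N * trB c (D2 f j p u) N) =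
      (∑ i, ∑ j, ∑ k, x i * y j * ξ k *
        trL c (((D1 f i u * D1 f j u - D1 f j u * D1 f i u) * D1 f k u -
        D1 f k u * (D1 f i u * D1 f j u - D1 f j u * D1 f i u)) * D1 f p u)) +
      (∑ i, x i * trB c (D2 f i p u) N) * l y - l x * (∑ j, y j * trB c (D2 f j p u) N) := by
      change _ = _ + (∑ i, x i * trB c (D2 f i p u) N) * (∑ j, y j * ∑ k, ξ k *
        trB c (D2 f j k u) N) - (∑ i, x i * ∑ k, ξ k * trB c (D2 f i k u) N) *
        (∑ j, y j * trB c (D2 f j p u) N)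
      rw [Finset.sum_mul_sum, Finset.sum_mul_sum, ← Finset.sum_add_distrib,
        ← Finset.sum_sub_distrib]
      refine Finset.sum_congr rfl fun i _ => ?_
      rw [← Finset.sum_add_distrib, ← Finset.sum_sub_distrib]
      refine Finset.sum_congr rfl fun j _ => ?_
      have e4 : x i * trB c (D2 f i p u) N * (y j * ∑ k, ξ k * trB c (D2 f j k u) N) =
          ∑ k, x i * y j * ξ k * (trB c (D2 f j k u) N * trB c (D2 f i p u) N) := by
        rw [Finset.mul_sum, Finset.mul_sum]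
        refine Finset.sum_congr rfl fun k _ => by ring
      have e5 : x i * (∑ k, ξ k * trB c (D2 f i k u) N) * (y j * trB c (D2 f j p u) N) =
          ∑ k, x i * y j * ξ k * (trB c (D2 f i k u) N * trB c (D2 f j p u) N) := by
        rw [Finset.mul_sum, Finset.sum_mul]
        refine Finset.sum_congr rfl fun k _ => by ring
      rw [e4, e5, ← Finset.sum_add_distrib, ← Finset.sum_sub_distrib]
      refine Finset.sum_congr rfl fun k _ => by ring
    rw [e3, hlx, hly] at e0
    rw [← bracket_expand (trL c) (fun i => D1 f i u) (fun i => x i) (fun i => y i)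
      (fun i => ξ i) (D1 f p u), hDx, hDy, hDξ] at e0
    rw [trB_apply, hK]
    linear_combination e0
  have hKS : ∀ X ∈ S, trB c K X = 0 := by
    intro X hX
    obtain ⟨x', hx'⟩ := (hS X).mp hX
    rw [← hx', fderiv_eq_sum_mat, trB_sum_right]
    refine Finset.sum_eq_zero fun k _ => ?_
    rw [hKq, mul_zero]
  have hfin := perp_eq (trB_symm c) hpos hST hdim hN hNN hNS' hKT hKS
  rw [hK] at hfin
  exact contradiction_alg hη hPη hH hv1 hv0 hw1 hwq hq0 hq hr1 hr0 hqr hz1 hz2 _ hfin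

end ctx

end local_thm

end hyper

/-! ### The final theorem -/

section final

open scoped Matrix.Norms.Operator

variable {n m : ℕ}

lemma eta_conj (ε : ℝ) : (eta m ε)ᴴ = eta m ε := by
  unfold eta
  rw [Matrix.diagonal_conjTranspose]
  congr 1
  ext i
  rcases i with i | i
  · simp
  · simp

lemma eta_sq {ε : ℝ} (hε : ε ^ 2 = 1) : eta m ε * eta m ε = 1 := by
  unfold eta
  rw [Matrix.diagonal_mul_diagonal, ← Matrix.diagonal_one]
  congr 1
  ext i
  rcases i with i | i
  · simp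
  · simp only [Sum.elim_inr]
    rw [← Complex.ofReal_mul, ← sq, hε, Complex.ofReal_one]

lemma contDiffAt_mat {k : ℕ∞ω} {f : Coord n → Mat m} {u : Coord n}
    (h : ∀ a b, ContDiffAt ℝ k (fun v => f v a b) u) : ContDiffAt ℝ k f u := by
  let L : (Fin 2 ⊕ Fin m → Fin 2 ⊕ Fin m → ℂ) →ₗ[ℝ] Mat m :=
    { toFun := fun g => Matrix.of g
      map_add' := fun _ _ => rfl
      map_smul' := fun _ _ => rfl }
  have h1 : ContDiffAt ℝ k (fun v => fun a b => f v a b) u := by
    rw [contDiffAt_pi]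
    intro a
    rw [contDiffAt_pi]
    exact h a
  exact L.toContinuousLinearMap.contDiff.contDiffAt.comp u h1

lemma fderiv_entry {f : Coord n → Mat m} {u : Coord n} (hf : DifferentiableAt ℝ f u)
    (x : Coord n) (a b : Fin 2 ⊕ Fin m) :
    fderiv ℝ (fun v => f v a b) u x = (fderiv ℝ f u x) a b := by
  let L : Mat m →ₗ[ℝ] ℂ :=
    { toFun := fun g => g a b
      map_add' := fun _ _ => rfl
      map_smul' := fun _ _ => rfl }
  have h1 : HasFDerivAt (fun v => L.toContinuousLinearMap (f v))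
      (L.toContinuousLinearMap.comp (fderiv ℝ f u)) u :=
    L.toContinuousLinearMap.hasFDerivAt.comp u hf.hasFDerivAt
  have h2 : fderiv ℝ (fun v => f v a b) u = L.toContinuousLinearMap.comp (fderiv ℝ f u) :=
    h1.fderiv
  rw [h2]
  rfl

variable {M : Type*} [TopologicalSpace M] [ChartedSpace (Coord n) M]

lemma contDiffAt_entry {g : M → ℂ} (hg : ContMDiff 𝓘(ℝ, Coord n) 𝓘(ℝ, ℂ) ∞ g)
    (p : M) : ContDiffAt ℝ ∞ (fun v => g ((chartAt (Coord n) p).symm v))
      (chartAt (Coord n) p p) := by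
  have h := (contMDiffAt_iff.mp (hg p)).2
  rw [← contDiffWithinAt_univ]
  simp only [mfld_simps] at h ⊢
  exact h

lemma localRep_base (F : M → Mat m) (p : M) : localRep F p (chartAt (Coord n) p p) = F p := by
  unfold localRep
  rw [OpenPartialHomeomorph.left_inv _ (mem_chart_source _ p)]

lemma contDiffAt_localRep {ε : ℝ} {F : M → Mat m}
    (hF : IsImmersed n ε F) (p : M) :
    ContDiffAt ℝ ∞ (localRep F p) (chartAt (Coord n) p p) :=
  contDiffAt_mat fun a b => contDiffAt_entry (hF.1 a b) p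

/-- Existence of the unit normal and of the Reeb vector; two vectors orthogonal to the Reeb
vector which violate the nullity conditions. -/
lemma main_lemma (hm : 3 ≤ m) (hn : n + 1 = 4 * m) {ε s : ℝ} (hε2 : ε ^ 2 = 1)
    (hs : 0 < s) (F : M → Mat m) (hF : IsImmersed n ε F) (p : M) :
    (∃ (N : Mat m) (ξ : Coord n), IsNormalReeb s ε F p N ξ) ∧
    ∀ (N : Mat m) (ξ : Coord n), IsNormalReeb s ε F p N ξ →
      ∃ X Y : Coord n, gM s ε F p X ξ = 0 ∧ gM s ε F p Y ξ = 0 ∧
        curvature s ε F p X Y ξ ≠ 0 := by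
  have hcε : 0 < s * ε * ε := by
    have : s * ε * ε = s := by
      rw [mul_assoc, ← sq, hε2, mul_one]
    rw [this]
    exact hs
  obtain ⟨f, hf⟩ : ∃ f : Coord n → Mat m, f = localRep F p := ⟨_, rfl⟩
  obtain ⟨u, hu⟩ : ∃ u, u = chartAt (Coord n) p p := ⟨_, rfl⟩
  have hfu : f u = F p := by rw [hf, hu, localRep_base]
  have hfc : ContDiffAt ℝ ∞ f u := by
    rw [hf, hu]
    exact contDiffAt_localRep hF p
  have hdm : ∀ X : Coord n, dF F p X = fderiv ℝ f u X := by
    intro X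
    rw [hf, hu]
    rfl
  have h1 : ∀ᶠ v in 𝓝 u, f v * f v = f v := by
    rw [hf]
    exact Filter.Eventually.of_forall fun v => (hF.2.1 _).1
  have h2 : ∀ᶠ v in 𝓝 u, (f v)ᴴ * eta m ε = eta m ε * f v := by
    rw [hf]
    exact Filter.Eventually.of_forall fun v => (hF.2.1 _).2.2.1
  have hr : (f u).rank = 2 := by
    rw [hfu]
    exact (hF.2.1 p).2.1
  have hH : (eta m ε * f u + (ε : ℂ) • (eta m ε * (1 - f u))).PosDef := by
    rw [hfu]
    exact (hF.2.1 p).2.2.2
  have hinj : Function.Injective (fderiv ℝ f u) := by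
    intro x y hxy
    apply hF.2.2 p
    rw [hdm x, hdm y]
    exact hxy
  have hcard : Fintype.card (Fin 2 ⊕ Fin m) = 2 + m := by simp
  constructor
  · obtain ⟨N, hN, ξ, hNN, hNS, hξ⟩ := local_exists hn hcard hε2 hcε (eta_conj ε) (eta_sq hε2)
      (hfc.differentiableAt (by simp)) h1 h2 hr hH hinj
    refine ⟨N, ξ, ⟨?_, hNN, ?_, ?_⟩⟩
    · rw [← hfu]
      exact hN
    · intro X
      rw [hdm X]
      exact hNS X
    · rw [hdm ξ, hξ, hfu]
      rfl
  · intro N ξ hN
    by_contra hcon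
    push Not at hcon
    refine local_main (G := gramAt s ε F p) (c := s * ε) (f := f) (u := u) ?_ hn hm hcard
      hε2 hcε (eta_conj ε) (eta_sq hε2) (hfc.of_le (WithTop.coe_le_coe.mpr (le_top : (3 : ℕ∞) ≤ ⊤)))
      h1 h2 hr hH hinj (N := N) ?_ hN.2.1 ?_ (ξ := ξ) ?_ ?_
    · rw [hf]
      rfl
    · rw [hfu]
      exact hN.1
    · intro x
      rw [← hdm x]
      exact hN.2.2.1 x
    · rw [← hdm ξ, hN.2.2.2, hfu]
      rfl
    · intro x y hx hy
      rw [hu]
      refine hcon x y ?_ ?_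
      · unfold gM
        rw [hdm x, hdm ξ]
        exact hx
      · unfold gM
        rw [hdm y, hdm ξ]
        exact hy

end final

end Pool.Agent.H67.NN
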